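import Pool.Agent.Q7.CE.Stm
import Pool.Agent.Q285.LK.CPL

/-!
# Project CE, job ECOND: locally solvable classes satisfy the conditions of the engine
-/

set_option autoImplicit false

namespace Pool.Agent.Q285.CE

open NumberField IsDedekindDomain Pool.Agent.Q7.LK Pool.Agent.Q7.CE Pool.Agent.Q285.LK Pool.Agent.Y682

/-- the maximum is attained twice -/
theorem max_twice {K Γ : Type} [Field K] [LinearOrderedCommGroupWithZero Γ] (val : Valuation K Γ) {x y z : K}
    (h : x + y + z = 0) :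
    (val x = val y ∧ val z ≤ val x) ∨ (val x = val z ∧ val y ≤ val x) ∨ (val y = val z ∧ val x ≤ val y) := by
  have hz : z = -(x + y) := by linear_combination h
  rcases lt_trichotomy (val x) (val y) with h1 | h1 | h1
  · refine Or.inr (Or.inr ⟨?_, h1.le⟩)
    rw [hz, Valuation.map_neg, Valuation.map_add_eq_of_lt_right val h1]
  · refine Or.inl ⟨h1, ?_⟩
    rw [hz, Valuation.map_neg]
    exact (Valuation.map_add val x y).trans (max_le le_rfl h1.ge)
  · refine Or.inr (Or.inl ⟨?_, h1.le⟩)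
    rw [hz, Valuation.map_neg, Valuation.map_add_eq_of_lt_left val h1]

section

variable {F : Type} [Field F] [NumberField F] (v : HeightOneSpectrum (𝓞 F))

/-- the order modulo `3` -/
noncomputable def rr (x : v.adicCompletion F) : ZMod 3 := ((WithZero.log (vv v x) : ℤ) : ZMod 3)

theorem rr_mul {x y : v.adicCompletion F} (hx : x ≠ 0) (hy : y ≠ 0) : rr v (x * y) = rr v x + rr v y := by
  unfold rr
  rw [map_mul, WithZero.log_mul ((Valuation.ne_zero_iff _).2 hx) ((Valuation.ne_zero_iff _).2 hy), Int.cast_add]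

theorem rr_pow3 (x : v.adicCompletion F) : rr v (x ^ 3) = 0 := by
  unfold rr
  rw [map_pow, WithZero.log_pow, nsmul_eq_mul, Int.cast_mul]
  have : ((((3 : ℕ) : ℤ)) : ZMod 3) = 0 := by decide
  rw [this, zero_mul]

theorem rr_neg (x : v.adicCompletion F) : rr v (-x) = rr v x := by
  unfold rr
  rw [Valuation.map_neg]

theorem rr_coe (a : F) : rr v (algebraMap F (v.adicCompletion F) a) = - vl 3 v a := by
  unfold rr vl
  rw [vv_coe, neg_neg]

variable {v}

theorem vv_three (hv : ¬ Dp 3 v) : vv v (((3 : ℕ) : v.adicCompletion F) ^ 2) = 1 := by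
  have e : ((3 : ℕ) : v.adicCompletion F) = algebraMap F _ (algebraMap (𝓞 F) F ((3 : ℕ) : 𝓞 F)) := by
    rw [map_natCast, map_natCast]
  rw [e, map_pow, vv_coe, (HeightOneSpectrum.valuation_eq_one_iff_notMem v).2 hv, one_pow]

/-- small perturbations -/
theorem cube_of_lt (hv : ¬ Dp 3 v) {y z : v.adicCompletion F} (hy : y ≠ 0) (h : vv v z < vv v y) :
    ∃ c : v.adicCompletion F, y + z = y * c ^ 3 := by
  have h1 : vv v (z / y) < 1 := by
    rw [map_div₀]
    exact (div_lt_one₀ (zero_lt_iff.2 ((Valuation.ne_zero_iff _).2 hy))).2 h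
  obtain ⟨c, hc⟩ := exists_proot v (p := 3) (by norm_num) (z / y) (by rw [vv_three hv]; exact h1)
  refine ⟨c, ?_⟩
  rw [hc, mul_add, mul_one, mul_div_cancel₀ z hy]

/-- the analysis of the valuations -/
theorem analysis (hv : ¬ Dp 3 v) {a D u w s : v.adicCompletion F} (ha : a ≠ 0) (hD : D ≠ 0)
    (h0 : u ≠ 0 ∨ w ≠ 0 ∨ s ≠ 0) (h : w ^ 3 = a ^ 2 * u ^ 3 + a * D * s ^ 3) :
    (rr v D = 0 → rr v a = 0) ∧ (rr v D ≠ 0 → (∃ x, a = x ^ 3) ∨ (∃ x, a * D = x ^ 3) ∨ ∃ x, a * D ^ 2 = x ^ 3) := by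
  have h3 : (3 : ℕ) ≠ 0 := by norm_num
  have hx : vv v (w ^ 3) = 0 → w = 0 := fun h1 => (pow_eq_zero_iff h3).1 ((Valuation.zero_iff _).1 h1)
  have hy : vv v (-(a ^ 2 * u ^ 3)) = 0 → u = 0 := fun h1 => by
    rw [Valuation.map_neg] at h1
    exact (pow_eq_zero_iff h3).1 ((mul_eq_zero.1 ((Valuation.zero_iff _).1 h1)).resolve_left (pow_ne_zero 2 ha))
  have hz : vv v (-(a * D * s ^ 3)) = 0 → s = 0 := fun h1 => by
    rw [Valuation.map_neg] at h1
    exact (pow_eq_zero_iff h3).1 ((mul_eq_zero.1 ((Valuation.zero_iff _).1 h1)).resolve_left (mul_ne_zero ha hD))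
  have rx : rr v (w ^ 3) = 0 := rr_pow3 v w
  have ry : u ≠ 0 → rr v (-(a ^ 2 * u ^ 3)) = 2 * rr v a := fun hu => by
    rw [rr_neg, rr_mul v (pow_ne_zero 2 ha) (pow_ne_zero 3 hu), rr_pow3, sq, rr_mul v ha ha]
    ring
  have rz : s ≠ 0 → rr v (-(a * D * s ^ 3)) = rr v a + rr v D := fun hs => by
    rw [rr_neg, rr_mul v (mul_ne_zero ha hD) (pow_ne_zero 3 hs), rr_pow3, rr_mul v ha hD, add_zero]
  have req : ∀ {x y : v.adicCompletion F}, vv v x = vv v y → rr v x = rr v y := fun h1 => by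
    unfold rr
    rw [h1]
  have d2 : ∀ A : ZMod 3, 0 = 2 * A → A = 0 := by decide
  have d3 : ∀ A Δ : ZMod 3, 2 * A = A + Δ → A = Δ := by decide
  have d4 : ∀ A Δ : ZMod 3, 0 = A + Δ → 2 * A = Δ := by decide
  rcases max_twice (vv v) (x := w ^ 3) (y := -(a ^ 2 * u ^ 3)) (z := -(a * D * s ^ 3))
    (by rw [h]; ring) with ⟨h1, h2⟩ | ⟨h1, h2⟩ | ⟨h1, h2⟩
  · have hw : w ≠ 0 := by
      intro hw
      have e0 : vv v (w ^ 3) = 0 := by rw [hw, zero_pow h3, map_zero]
      have hu := hy (h1.symm.trans e0)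
      have hs := hz (le_zero_iff.1 (h2.trans e0.le))
      rcases h0 with h | h | h
      · exact h hu
      · exact h hw
      · exact h hs
    have hu : u ≠ 0 := by
      rintro rfl
      apply hw
      apply hx
      rw [h1, zero_pow h3, mul_zero, neg_zero, map_zero]
    have hA : rr v a = 0 := by
      apply d2
      rw [← rx, ← ry hu]
      exact req h1
    refine ⟨fun _ => hA, fun hD0 => Or.inl ?_⟩
    have hlt : vv v (a * D * s ^ 3) < vv v (a ^ 2 * u ^ 3) := by
      rw [← Valuation.map_neg (vv v) (a * D * s ^ 3), ← Valuation.map_neg (vv v) (a ^ 2 * u ^ 3), ← h1]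
      refine lt_of_le_of_ne h2 fun h4 => hD0 ?_
      have hs : s ≠ 0 := by
        rintro rfl
        apply hw
        apply hx
        rw [← h4, zero_pow h3, mul_zero, neg_zero, map_zero]
      have h5 := req h4
      rw [rx, rz hs, hA, zero_add] at h5
      exact h5
    obtain ⟨c, hc⟩ := cube_of_lt hv (mul_ne_zero (pow_ne_zero 2 ha) (pow_ne_zero 3 hu)) hlt
    rw [← h] at hc
    refine ⟨a * u * c / w, ?_⟩
    rw [div_pow, mul_pow, mul_pow, hc]
    have hc0 : c ≠ 0 := by
      rintro rfl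
      rw [zero_pow h3, mul_zero] at hc
      exact hw ((pow_eq_zero_iff h3).1 hc)
    field_simp
  · have hw : w ≠ 0 := by
      intro hw
      have e0 : vv v (w ^ 3) = 0 := by rw [hw, zero_pow h3, map_zero]
      have hs := hz (h1.symm.trans e0)
      have hu := hy (le_zero_iff.1 (h2.trans e0.le))
      rcases h0 with h | h | h
      · exact h hu
      · exact h hw
      · exact h hs
    have hs : s ≠ 0 := by
      rintro rfl
      apply hw
      apply hx
      rw [h1, zero_pow h3, mul_zero, neg_zero, map_zero]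
    have hA : 0 = rr v a + rr v D := by
      rw [← rz hs, ← rx]
      exact req h1
    refine ⟨fun hD0 => ?_, fun hD0 => Or.inr (Or.inl ?_)⟩
    · rw [hD0, add_zero] at hA
      exact hA.symm
    have hlt : vv v (a ^ 2 * u ^ 3) < vv v (a * D * s ^ 3) := by
      rw [← Valuation.map_neg (vv v) (a * D * s ^ 3), ← Valuation.map_neg (vv v) (a ^ 2 * u ^ 3), ← h1]
      refine lt_of_le_of_ne h2 fun h4 => hD0 ?_
      have hu : u ≠ 0 := by
        rintro rfl
        apply hw
        apply hx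
        rw [← h4, zero_pow h3, mul_zero, neg_zero, map_zero]
      have h5 := req h4
      rw [rx, ry hu] at h5
      have h6 := d4 _ _ hA
      rw [← h6]
      exact h5
    obtain ⟨c, hc⟩ := cube_of_lt hv (mul_ne_zero (mul_ne_zero ha hD) (pow_ne_zero 3 hs)) hlt
    rw [add_comm, ← h] at hc
    have hc0 : c ≠ 0 := by
      rintro rfl
      rw [zero_pow h3, mul_zero] at hc
      exact hw ((pow_eq_zero_iff h3).1 hc)
    refine ⟨w / (s * c), ?_⟩
    rw [div_pow, mul_pow, hc]
    field_simp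
  · have hu : u ≠ 0 := by
      intro hu
      have e0 : vv v (-(a ^ 2 * u ^ 3)) = 0 := by rw [hu, zero_pow h3, mul_zero, neg_zero, map_zero]
      have hs := hz (h1.symm.trans e0)
      have hw := hx (le_zero_iff.1 (h2.trans e0.le))
      rcases h0 with h | h | h
      · exact h hu
      · exact h hw
      · exact h hs
    have hs : s ≠ 0 := by
      rintro rfl
      apply hu
      apply hy
      rw [h1, zero_pow h3, mul_zero, neg_zero, map_zero]
    have hA : rr v a = rr v D := by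
      apply d3
      rw [← rz hs, ← ry hu]
      exact req h1
    refine ⟨fun hD0 => hA.trans hD0, fun hD0 => Or.inr (Or.inr ?_)⟩
    have hlt : vv v (w ^ 3) < vv v (-(a * D * s ^ 3)) := by
      rw [← h1]
      refine lt_of_le_of_ne h2 fun h4 => hD0 ?_
      have h5 := req h4
      rw [rx, ry hu, hA] at h5
      exact d2 _ h5
    obtain ⟨c, hc⟩ := cube_of_lt hv (neg_ne_zero.2 (mul_ne_zero (mul_ne_zero ha hD) (pow_ne_zero 3 hs))) hlt
    have h6 : a ^ 2 * u ^ 3 = -(a * D * s ^ 3) * c ^ 3 := by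
      rw [← hc, h]
      ring
    have h7 : a * u ^ 3 = -(D * s ^ 3) * c ^ 3 := by
      apply mul_left_cancel₀ ha
      linear_combination h6
    refine ⟨-(D * s * c) / u, ?_⟩
    have hu3 : u ^ 3 ≠ 0 := pow_ne_zero 3 hu
    rw [div_pow, eq_div_iff hu3]
    linear_combination D ^ 2 * h7

end

theorem econd : S_BAS → S_CPL → S_ECOND := by
  intro hBAS hCPL F _ _ D a hD hAE
  have : Fact (Nat.Prime 3) := ⟨Nat.prime_three⟩
  have ha : a ≠ 0 := by
    obtain ⟨v⟩ : Nonempty (HeightOneSpectrum (𝓞 F)) := by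
      obtain ⟨M, hM⟩ := Ideal.exists_maximal (𝓞 F)
      exact ⟨⟨M, hM.isPrime, Ring.ne_bot_of_isMaximal_of_not_isField hM
        (RingOfIntegers.not_isField F)⟩⟩
    exact (hAE v).1
  have key : ∀ v : HeightOneSpectrum (𝓞 F), ¬ Dp 3 v → (vl 3 v D = 0 → vl 3 v a = 0) ∧
      (vl 3 v D ≠ 0 → ∃ j : ℕ, Lpw 3 v (a * D ^ j)) := by
    intro v hv
    obtain ⟨-, u, w, s, h0, h1⟩ := hAE v
    rw [cpl_coe, cpl_coe] at h1
    obtain ⟨h2, h3⟩ := analysis hv ((map_ne_zero (algebraMap F (v.adicCompletion F))).2 ha)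
      ((map_ne_zero (algebraMap F (v.adicCompletion F))).2 hD) h0 h1
    rw [rr_coe, rr_coe, neg_eq_zero, neg_eq_zero] at h2
    rw [rr_coe, neg_ne_zero] at h3
    refine ⟨h2, fun h4 => ?_⟩
    rcases h3 h4 with ⟨x, hx⟩ | ⟨x, hx⟩ | ⟨x, hx⟩
    · refine ⟨0, (hCPL 3 F v _).2 ⟨mul_ne_zero ha (pow_ne_zero _ hD), x, ?_⟩⟩
      rw [cpl_coe, pow_zero, mul_one]
      exact hx
    · refine ⟨1, (hCPL 3 F v _).2 ⟨mul_ne_zero ha (pow_ne_zero _ hD), x, ?_⟩⟩
      rw [cpl_coe, pow_one, map_mul]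
      exact hx
    · refine ⟨2, (hCPL 3 F v _).2 ⟨mul_ne_zero ha (pow_ne_zero _ hD), x, ?_⟩⟩
      rw [cpl_coe, map_mul, map_pow]
      exact hx
  exact ⟨ha, fun v hv => (key v hv).1, fun v hv => (key v hv).2, fun v _ => hAE v⟩

end Pool.Agent.Q285.CE
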