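import Pool.Agent.Q7.CE.Stm
import Pool.Agent.Q286.EQ.MW

/-!
# Project CE, job ETRI: triviality of the Tate-Shafarevich group and finiteness of the Mordell-Weil group
-/

set_option autoImplicit false

namespace Pool.Agent.Q285.CE

open NumberField IsDedekindDomain WeierstrassCurve Pool.Agent.Q7.LK Pool.Agent.Q7.CE
open Pool.Agent.TH841.SH.D (Coch Pt act Gal IsCoc IsCob LocTriv cob)
open Pool.Agent.TH841.NF.D (Sha IsShaCoc shaCoc)

theorem some_cg {R : Type} [Field R] {W : WeierstrassCurve R} {a b a' b' : R}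
    {h : W.toAffine.Nonsingular a b} {h' : W.toAffine.Nonsingular a' b'} (e : a = a') (e' : b = b') :
    (Affine.Point.some a b h : W.toAffine.Point) = Affine.Point.some a' b' h' := by
  subst e e'
  rfl

theorem some_in {R : Type} [Field R] {W : WeierstrassCurve R} {a b a' b' : R}
    {h : W.toAffine.Nonsingular a b} {h' : W.toAffine.Nonsingular a' b'}
    (e : (Affine.Point.some a b h : W.toAffine.Point) = Affine.Point.some a' b' h') : a = a' ∧ b = b' := by
  injection e with e1 e2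
  exact ⟨e1, e2⟩

section gen

variable {k : Type} [Field k] (W : WeierstrassCurve k)

theorem act_act' {A B C : Type} [Field A] [Field B] [Field C] [Algebra k A] [Algebra k B] [Algebra k C]
    (g : B →ₐ[k] C) (f : A →ₐ[k] B) (P : Pt W A) : act W g (act W f P) = act W (g.comp f) P := by
  rcases P with _ | ⟨x, y, h⟩ <;> rfl

theorem lc_app (x : AlgebraicClosure k) : IsLocallyConstant (fun σ : Gal k => σ x) := by
  rw [IsLocallyConstant.iff_exists_open]
  intro σ
  have hx : IsIntegral k x := Algebra.IsIntegral.isIntegral x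
  have : FiniteDimensional k (IntermediateField.adjoin k {x}) :=
    IntermediateField.adjoin.finiteDimensional hx
  refine ⟨(fun τ => σ⁻¹ * τ) ⁻¹'
    ((IntermediateField.adjoin k {x}).fixingSubgroup : Set (Gal k)),
    (IntermediateField.fixingSubgroup_isOpen _).preimage (continuous_const_mul _), ?_, ?_⟩
  · show σ⁻¹ * σ ∈ (IntermediateField.adjoin k {x}).fixingSubgroup
    rw [inv_mul_cancel]
    exact one_mem _
  · intro τ hτ
    have h1 : σ⁻¹ * τ ∈ (IntermediateField.adjoin k {x}).fixingSubgroup := hτ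
    rw [IntermediateField.mem_fixingSubgroup_iff] at h1
    have h2 := h1 x (IntermediateField.mem_adjoin_simple_self k x)
    rw [AlgEquiv.mul_apply] at h2
    have h3 := congrArg σ h2
    rw [← AlgEquiv.mul_apply, mul_inv_cancel, AlgEquiv.one_apply] at h3
    exact h3

theorem lc_act' (Q : Pt W (AlgebraicClosure k)) :
    IsLocallyConstant (fun σ : Gal k => act W σ.toAlgHom Q) := by
  rcases Q with _ | ⟨x, y, h⟩
  · exact IsLocallyConstant.const _
  · rw [IsLocallyConstant.iff_eventually_eq]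
    intro σ
    have h1 := ((IsLocallyConstant.iff_eventually_eq _).1 (lc_app x)) σ
    have h2 := ((IsLocallyConstant.iff_eventually_eq _).1 (lc_app y)) σ
    filter_upwards [h1, h2] with τ h3 h4
    exact some_cg (W := W.baseChange (AlgebraicClosure k)) h3 h4

theorem act_mul' (σ τ : Gal k) (Q : Pt W (AlgebraicClosure k)) :
    act W (σ * τ).toAlgHom Q = act W σ.toAlgHom (act W τ.toAlgHom Q) := by
  rw [act_act']
  rfl

/-- the coboundary of a point -/
noncomputable def cbd (Q : Pt W (AlgebraicClosure k)) : Coch W := fun σ => act W σ.toAlgHom Q - Q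

theorem loc_cbd (K : Type) [Field K] [Algebra k K] (Q : Pt W (AlgebraicClosure k)) :
    LocTriv W K (cbd W Q) := by
  intro ι
  refine ⟨act W ι Q, fun τ σ h => ?_⟩
  have e : ι.comp σ.toAlgHom = (τ.toAlgHom.restrictScalars k).comp ι := AlgHom.ext fun x => (h x).symm
  show act W ι (act W σ.toAlgHom Q - Q) = _
  rw [map_sub, act_act', act_act', e]

theorem coc_cbd (Q : Pt W (AlgebraicClosure k)) : IsCoc W (cbd W Q) := by
  refine ⟨(lc_act' W Q).sub (IsLocallyConstant.const Q), fun σ τ => ?_⟩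
  show act W (σ * τ).toAlgHom Q - Q = (act W σ.toAlgHom Q - Q) + act W σ.toAlgHom (act W τ.toAlgHom Q - Q)
  rw [map_sub, act_mul']
  abel

/-- fixed points are rational -/
theorem descent [CharZero k] (P : Pt W (AlgebraicClosure k)) (hP : ∀ σ : Gal k, act W σ.toAlgHom P = P) :
    ∃ q : Pt W k, act W (Algebra.ofId k (AlgebraicClosure k)) q = P := by
  rcases P with _ | ⟨X, Y, h⟩
  · exact ⟨0, rfl⟩
  · have hfix : ∀ σ : Gal k, σ X = X ∧ σ Y = Y := by
      intro σ
      exact some_in (W := W.baseChange (AlgebraicClosure k)) (hP σ)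
    obtain ⟨x, hx⟩ := IntermediateField.mem_bot.1 ((InfiniteGalois.mem_bot_iff_fixed X).2 fun σ => (hfix σ).1)
    obtain ⟨y, hy⟩ := IntermediateField.mem_bot.1 ((InfiniteGalois.mem_bot_iff_fixed Y).2 fun σ => (hfix σ).2)
    subst hx hy
    have hn : (W.baseChange k).toAffine.Nonsingular x y :=
      (Affine.baseChange_nonsingular W (f := Algebra.ofId k (AlgebraicClosure k))
        (Algebra.ofId k (AlgebraicClosure k)).injective x y).mp h
    exact ⟨.some x y hn, rfl⟩

theorem act_inj {A B : Type} [Field A] [Field B] [Algebra k A] [Algebra k B] (f : A →ₐ[k] B) :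
    Function.Injective (act W f) := by
  rintro (_ | ⟨x, y, h⟩) (_ | ⟨x', y', h'⟩) he
  · rfl
  · exact absurd he.symm (Affine.Point.some_ne_zero _)
  · exact absurd he (Affine.Point.some_ne_zero _)
  · have h1 : f x = f x' ∧ f y = f y' := some_in (W := W.baseChange B) he
    exact some_cg (W := W.baseChange A) (f.injective h1.1) (f.injective h1.2)

theorem act_fix (σ : Gal k) (P : Pt W k) : act W σ.toAlgHom (act W (Algebra.ofId k (AlgebraicClosure k)) P) =
    act W (Algebra.ofId k (AlgebraicClosure k)) P := by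
  have e : (σ.toAlgHom).comp (Algebra.ofId k (AlgebraicClosure k)) = Algebra.ofId k (AlgebraicClosure k) :=
    AlgHom.ext fun x => σ.commutes x
  rw [act_act', e]

/-- an endomorphism over all the extensions, like `1 - ω` -/
structure EndG (Θ : ∀ (L : Type) [Field L] [Algebra k L], Pt W L →+ Pt W L) : Prop where
  nat : ∀ (L L' : Type) [Field L] [Algebra k L] [Field L'] [Algebra k L'] (φ : L →ₐ[k] L') (P : Pt W L),
    act W φ (Θ L P) = Θ L' (act W φ P)
  ker : ∀ (L : Type) [Field L] [Algebra k L] (P : Pt W L),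
    Θ L P = 0 → P = 0 ∨ ∃ y h, P = Affine.Point.some 0 y h
  surj : ∀ (L : Type) [Field L] [Algebra k L], IsAlgClosed L → ∀ P : Pt W L, ∃ R, Θ L R = P

end gen

/-- finitely generated groups with `M = 3 M + M[3]` are finite -/
theorem fin_of_div {M : Type} [AddCommGroup M] (hfg : AddGroup.FG M)
    (h : ∀ P : M, ∃ Q T : M, P = (3 : ℕ) • Q + T ∧ (3 : ℕ) • T = 0) : Finite M := by
  have hM : Module.Finite ℤ M := Module.Finite.iff_addGroup_fg.2 hfg
  let g : M →ₗ[ℤ] M := LinearMap.lsmul ℤ M 3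
  have hg : ∀ x, g x = (3 : ℤ) • x := fun x => rfl
  have hN : (LinearMap.range g).FG := by
    rw [LinearMap.range_eq_map]
    exact (Module.Finite.fg_top (R := ℤ) (M := M)).map g
  have hle : LinearMap.range g ≤ (Ideal.span {(3 : ℤ)}) • LinearMap.range g := by
    rintro _ ⟨P, rfl⟩
    obtain ⟨Q, T, hP, hT⟩ := h P
    have e : g P = (3 : ℤ) • g Q := by
      rw [hg, hg, hP, smul_add]
      have h1 : (3 : ℤ) • T = 0 := by
        rw [← hT, ← natCast_zsmul]
        rfl
      rw [h1, add_zero, ← natCast_zsmul]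
      rfl
    rw [e]
    exact Submodule.smul_mem_smul (Ideal.mem_span_singleton_self _) ⟨Q, rfl⟩
  obtain ⟨r, hr, hrN⟩ := Submodule.exists_sub_one_mem_and_smul_eq_zero_of_fg_of_le_smul _ _ hN hle
  have hr0 : r ≠ 0 := by
    rintro rfl
    rw [Ideal.mem_span_singleton] at hr
    omega
  have ht : Module.IsTorsion ℤ M := by
    intro x
    refine ⟨⟨r * 3, mem_nonZeroDivisors_of_ne_zero (mul_ne_zero hr0 (by norm_num))⟩, ?_⟩
    show (r * 3) • x = 0
    rw [mul_smul]
    exact hrN _ ⟨x, rfl⟩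
  exact Module.finite_of_fg_torsion _ ht

section main

variable {F : Type} [Field F] [NumberField F] {W : WeierstrassCurve F}

theorem sha_cbd (Q : Pt W (AlgebraicClosure F)) : IsShaCoc W (cbd W Q) :=
  ⟨coc_cbd W Q, fun _ => loc_cbd W _ Q, fun _ => loc_cbd W _ Q⟩

variable {Θ : ∀ (L : Type) [Field L] [Algebra F L], Pt W L →+ Pt W L}

theorem sha_theta (hΘ : EndG W Θ) {f : Coch W} (hf : IsShaCoc W f) :
    IsShaCoc W (fun σ => Θ (AlgebraicClosure F) (f σ)) := by
  have hl : ∀ (K : Type) [Field K] [Algebra F K], LocTriv W K f →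
      LocTriv W K (fun σ => Θ (AlgebraicClosure F) (f σ)) := by
    intro K _ _ h ι
    obtain ⟨P, hP⟩ := h ι
    refine ⟨Θ (AlgebraicClosure K) P, fun τ σ hτ => ?_⟩
    rw [hΘ.nat, hP τ σ hτ, map_sub, ← hΘ.nat]
  refine ⟨⟨hf.1.1.comp _, fun σ τ => ?_⟩, fun v => hl _ (hf.2.1 v), fun v => hl _ (hf.2.2 v)⟩
  show Θ (AlgebraicClosure F) (f (σ * τ)) = Θ (AlgebraicClosure F) (f σ) +
    act W σ.toAlgHom (Θ (AlgebraicClosure F) (f τ))
  rw [hf.1.2, map_add, hΘ.nat]

/-- the hypothesis (A) -/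
def HA (W : WeierstrassCurve F) : Prop := ∀ f : Coch W, IsShaCoc W f →
  (∀ σ, f σ = 0 ∨ ∃ y h, f σ = Affine.Point.some 0 y h) →
  ∃ R : Pt W (AlgebraicClosure F), (3 : ℕ) • R = 0 ∧ ∀ σ : Gal F, f σ = act W σ.toAlgHom R - R

theorem stepB (hA : HA W) (hΘ : EndG W Θ) {f : Coch W} (hf : IsShaCoc W f)
    (hc : IsCob W (fun σ => Θ (AlgebraicClosure F) (f σ))) : IsCob W f := by
  obtain ⟨P, hP⟩ := hc
  obtain ⟨R, hR⟩ := hΘ.surj (AlgebraicClosure F) inferInstance P
  have hg : IsShaCoc W (f - cbd W R) := (shaCoc W).sub_mem hf (sha_cbd R)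
  obtain ⟨R', -, hR'⟩ := hA (f - cbd W R) hg (fun σ => by
    apply hΘ.ker
    show Θ (AlgebraicClosure F) (f σ - (act W σ.toAlgHom R - R)) = 0
    have h1 : Θ (AlgebraicClosure F) (f σ) = act W σ.toAlgHom P - P := hP σ
    rw [map_sub, map_sub, ← hΘ.nat, h1, hR, sub_self])
  refine ⟨R + R', fun σ => ?_⟩
  have h1 : f σ - (act W σ.toAlgHom R - R) = act W σ.toAlgHom R' - R' := hR' σ
  rw [map_add]
  have h2 : f σ = (act W σ.toAlgHom R' - R') + (act W σ.toAlgHom R - R) := by
    rw [← h1]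
    abel
  rw [h2]
  abel

theorem stepC (hA : HA W) (hΘ : EndG W Θ) (P : Pt W F) :
    ∃ Q T : Pt W F, P = Θ F Q + T ∧ (3 : ℕ) • T = 0 := by
  let j := act W (Algebra.ofId F (AlgebraicClosure F))
  have hj : Function.Injective j := act_inj W _
  obtain ⟨R, hR⟩ := hΘ.surj (AlgebraicClosure F) inferInstance (j P)
  obtain ⟨R', h3, hR'⟩ := hA (cbd W R) (sha_cbd R) (fun σ => by
    apply hΘ.ker
    show Θ (AlgebraicClosure F) (act W σ.toAlgHom R - R) = 0
    rw [map_sub, ← hΘ.nat, hR]
    show act W σ.toAlgHom (act W (Algebra.ofId F (AlgebraicClosure F)) P) - j P = 0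
    rw [act_fix]
    exact sub_self _)
  obtain ⟨Q, hQ⟩ := descent W (R - R') (fun σ => by
    have h1 : act W σ.toAlgHom R - R = act W σ.toAlgHom R' - R' := hR' σ
    rw [map_sub]
    rw [sub_eq_sub_iff_add_eq_add] at h1 ⊢
    rw [h1]
    abel)
  refine ⟨Q, P - Θ F Q, by abel, ?_⟩
  apply hj
  have h1 : j (P - Θ F Q) = Θ (AlgebraicClosure F) R' := by
    have h2 : j (Θ F Q) = Θ (AlgebraicClosure F) (R - R') := by
      rw [← hQ]
      exact hΘ.nat F (AlgebraicClosure F) _ Q
    rw [map_sub, h2, ← hR, map_sub]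
    abel
  rw [map_nsmul, h1, ← map_nsmul, h3, map_zero, map_zero]

end main

theorem etri : S_EKUM → S_EDD → S_ECOND → S_ETRI := by
  intro hEKUM hEDD hECOND F _ _ ω D hω hD hbad
  obtain ⟨θ, θ', h3, hnat, hker, hsurj⟩ := hEDD F ω D hω hD
  have hA : HA (ED D) := by
    intro f hf hv
    obtain ⟨a, ha, hR⟩ := hEKUM F ω D hω hD f hf hv
    have hc := hECOND F D a hD ha
    have hj : ∃ j : ℕ, IsPow 3 (a * D ^ j) := by
      by_contra h
      push Not at h
      exact hbad ⟨a, hc, h⟩
    obtain ⟨j, hj⟩ := hj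
    exact hR j hj
  have hθ : EndG (ED D) θ := ⟨fun L L' _ _ _ _ φ P => (hnat L L' φ P).1, fun L _ _ P => (hker L P).1,
    fun L _ _ hL P => (hsurj L hL P).1⟩
  have hθ' : EndG (ED D) θ' := ⟨fun L L' _ _ _ _ φ P => (hnat L L' φ P).2, fun L _ _ P => (hker L P).2,
    fun L _ _ hL P => (hsurj L hL P).2⟩
  constructor
  · have hΔ : ((ED D).baseChange F).Δ ≠ 0 := by
      have e : ((ED D).baseChange F).Δ = -27 * D ^ 4 := by
        show -(_ : F) ^ 2 * _ - 8 * _ ^ 3 - 27 * _ ^ 2 + 9 * _ * _ * _ = _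
        have e2 : ((ED D).baseChange F).b₂ = 0 := by
          show (0 : F) ^ 2 + 4 * 0 = 0
          ring
        have e4 : ((ED D).baseChange F).b₄ = 0 := by
          show 2 * (0 : F) + 0 * D = 0
          ring
        have e6 : ((ED D).baseChange F).b₆ = D ^ 2 := by
          show D ^ 2 + 4 * (0 : F) = D ^ 2
          ring
        rw [e2, e4, e6]
        ring
      rw [e]
      exact mul_ne_zero (by norm_num) (pow_ne_zero 4 hD)
    have hfg : AddGroup.FG (Pt (ED D) F) :=
      @Pool.Agent.Q286.EQ.mordell_weil F _ _ (Classical.decEq F) ((ED D).baseChange F) hΔ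
    have hfin : Finite (Pt (ED D) F) := fin_of_div hfg fun P => by
      obtain ⟨Q, T, hP, hT⟩ := stepC hA hθ P
      obtain ⟨Q', T', hQ, hT'⟩ := stepC hA hθ' Q
      refine ⟨Q', θ F T' + T, ?_, ?_⟩
      · rw [hP, hQ, map_add, (h3 F Q').2, add_assoc]
      · rw [smul_add, hT, ← map_nsmul, hT', map_zero, add_zero]
    exact hfin
  · have hcob : ∀ f : Coch (ED D), IsShaCoc (ED D) f → IsCob (ED D) (fun σ => (3 : ℕ) • f σ) → IsCob (ED D) f := by
      intro f hf hc
      refine stepB hA hθ hf (stepB hA hθ' (sha_theta hθ hf) ?_)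
      have e : (fun σ => θ' (AlgebraicClosure F) (θ (AlgebraicClosure F) (f σ))) =
          fun σ => (3 : ℕ) • f σ := funext fun σ => (h3 _ _).1
      rw [e]
      exact hc
    have h1 : ∀ x : Sha (ED D), (3 : ℕ) • x = 0 → x = 0 := by
      intro x
      obtain ⟨f, rfl⟩ := QuotientAddGroup.mk_surjective x
      intro hx
      have h2 : IsCob (ED D) (fun σ => (3 : ℕ) • f.1 σ) := by
        have h4 := (QuotientAddGroup.eq_zero_iff (N := (cob (ED D)).addSubgroupOf (shaCoc (ED D)))
          ((3 : ℕ) • f)).1 hx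
        exact h4
      exact (QuotientAddGroup.eq_zero_iff (N := (cob (ED D)).addSubgroupOf (shaCoc (ED D))) f).2
        (hcob f.1 f.2 h2)
    intro n
    induction n with
    | zero =>
      intro x hx
      rwa [pow_zero, one_smul] at hx
    | succ n ih =>
      intro x hx
      apply h1
      apply ih
      rw [← mul_smul, ← pow_succ]
      exact hx

end Pool.Agent.Q285.CE
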