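import Mathlib

/-!
# The curve `y² + D y = x³` over a field with a primitive cube root of unity
-/

set_option autoImplicit false

namespace Pool.Agent.Q285.CE

open WeierstrassCurve

variable {F : Type*} [Field F] [DecidableEq F]

/-- the curve `y² + D y = x³` -/
structure IsD (V : WeierstrassCurve F) (D : F) : Prop where
  h1 : V.a₁ = 0
  h2 : V.a₂ = 0
  h3 : V.a₃ = D
  h4 : V.a₄ = 0
  h6 : V.a₆ = 0

variable {V : WeierstrassCurve F} {D : F}

omit [DecidableEq F] in
theorem IsD.eqn (hV : IsD V D) (x y : F) : V.toAffine.Equation x y ↔ y ^ 2 + D * y = x ^ 3 := by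
  rw [Affine.equation_iff]
  show y ^ 2 + V.a₁ * x * y + V.a₃ * y = x ^ 3 + V.a₂ * x ^ 2 + V.a₄ * x + V.a₆ ↔ _
  rw [hV.h1, hV.h2, hV.h3, hV.h4, hV.h6]
  constructor
  · intro h; linear_combination h
  · intro h; linear_combination h

omit [DecidableEq F] in
theorem IsD.negY (hV : IsD V D) (x y : F) : V.toAffine.negY x y = -y - D := by
  show -y - V.a₁ * x - V.a₃ = -y - D
  rw [hV.h1, hV.h3]
  ring

omit [DecidableEq F] in
theorem IsD.nons [CharZero F] (hV : IsD V D) (hD : D ≠ 0) {x y : F} (he : y ^ 2 + D * y = x ^ 3) :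
    V.toAffine.Nonsingular x y := by
  rw [Affine.nonsingular_iff]
  refine ⟨(hV.eqn x y).2 he, ?_⟩
  by_cases hy : 2 * y + D = 0
  · left
    show V.a₁ * y ≠ 3 * x ^ 2 + 2 * V.a₂ * x + V.a₄
    rw [hV.h1, hV.h2, hV.h4]
    intro h3
    have h4 : x ^ 2 = 0 := by
      have h5 : (3 : F) * x ^ 2 = 0 := by linear_combination -h3
      exact (mul_eq_zero.1 h5).resolve_left three_ne_zero
    have hx : x = 0 := pow_eq_zero_iff two_ne_zero |>.1 h4
    subst hx
    have h5 : D ^ 2 = 0 := by linear_combination -4 * he + (2 * y + D) * hy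
    exact hD (pow_eq_zero_iff two_ne_zero |>.1 h5)
  · right
    show y ≠ -y - V.a₁ * x - V.a₃
    rw [hV.h1, hV.h3]
    intro h5
    apply hy
    linear_combination h5

/-- the addition law -/
theorem IsD.add_ex (hV : IsD V D) {x1 y1 x2 y2 : F} (h1 : V.toAffine.Nonsingular x1 y1)
    (h2 : V.toAffine.Nonsingular x2 y2) (hxy : ¬ (x1 = x2 ∧ y1 = -y2 - D)) :
    ∃ (ℓ X Y : F) (h : V.toAffine.Nonsingular X Y),
      (Affine.Point.some x1 y1 h1 : V.toAffine.Point) + .some x2 y2 h2 = .some X Y h ∧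
      X = ℓ ^ 2 - x1 - x2 ∧ Y = -(ℓ * (X - x1) + y1) - D ∧
      ((x1 ≠ x2 ∧ ℓ * (x1 - x2) = y1 - y2) ∨
        (x1 = x2 ∧ y1 = y2 ∧ 2 * y1 + D ≠ 0 ∧ ℓ * (2 * y1 + D) = 3 * x1 ^ 2)) := by
  have hxy' : ¬ (x1 = x2 ∧ y1 = V.toAffine.negY x2 y2) := by rwa [hV.negY]
  refine ⟨V.toAffine.slope x1 x2 y1 y2, _, _, _, Affine.Point.add_some hxy', ?_, ?_, ?_⟩
  · show _ ^ 2 + V.a₁ * _ - V.a₂ - x1 - x2 = _
    rw [hV.h1, hV.h2]
    ring
  · show -(_ * (_ ^ 2 + V.a₁ * _ - V.a₂ - x1 - x2 - x1) + y1) - V.a₁ * _ - V.a₃ =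
      -(_ * ((_ ^ 2 + V.a₁ * _ - V.a₂ - x1 - x2) - x1) + y1) - D
    rw [hV.h1, hV.h3]
    ring
  · by_cases hx : x1 = x2
    · right
      subst hx
      have hy : y1 ≠ -y2 - D := fun h => hxy ⟨rfl, h⟩
      have e1 := (hV.eqn _ _).1 h1.1
      have e2 := (hV.eqn _ _).1 h2.1
      have e3 : (y1 - y2) * (y1 + y2 + D) = 0 := by linear_combination e1 - e2
      have e4 : y1 + y2 + D ≠ 0 := fun h => hy (by linear_combination h)
      have e5 : y1 = y2 := by
        have := (mul_eq_zero.1 e3).resolve_right e4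
        linear_combination this
      subst e5
      have e6 : 2 * y1 + D ≠ 0 := by
        intro h
        apply e4
        linear_combination h
      refine ⟨rfl, rfl, e6, ?_⟩
      have hY : y1 ≠ V.toAffine.negY x1 y1 := by rwa [hV.negY]
      rw [Affine.slope_of_Y_ne rfl hY, hV.negY]
      show (3 * x1 ^ 2 + 2 * V.a₂ * x1 + V.a₄ - V.a₁ * y1) / (y1 - (-y1 - D)) * (2 * y1 + D) = _
      rw [hV.h1, hV.h2, hV.h4]
      have e7 : y1 - (-y1 - D) ≠ 0 := by
        intro h
        apply e4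
        linear_combination h
      rw [div_mul_eq_mul_div, div_eq_iff e7]
      ring
    · left
      refine ⟨hx, ?_⟩
      rw [Affine.slope_of_X_ne hx, div_mul_cancel₀ _ (sub_ne_zero.2 hx)]

/-- opposite points -/
theorem IsD.add_opp (hV : IsD V D) {x1 y1 x2 y2 : F} (h1 : V.toAffine.Nonsingular x1 y1)
    (h2 : V.toAffine.Nonsingular x2 y2) (hxy : x1 = x2 ∧ y1 = -y2 - D) :
    (Affine.Point.some x1 y1 h1 : V.toAffine.Point) + .some x2 y2 h2 = 0 :=
  Affine.Point.add_of_Y_eq hxy.1 (by rw [hV.negY]; exact hxy.2)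

variable [CharZero F]

omit [DecidableEq F] in
theorem IsD.neg_nons (hV : IsD V D) (hD : D ≠ 0) {x y : F} (h : V.toAffine.Nonsingular x y) :
    V.toAffine.Nonsingular x (-y - D) := by
  apply hV.nons hD
  have := (hV.eqn _ _).1 h.1
  linear_combination this

omit [DecidableEq F] [CharZero F] in
theorem IsD.neg_eq (hV : IsD V D) {x y : F} (h : V.toAffine.Nonsingular x y)
    (h' : V.toAffine.Nonsingular x (-y - D)) :
    -(Affine.Point.some x y h : V.toAffine.Point) = .some x (-y - D) h' := by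
  rw [Affine.Point.neg_some]
  congr 1
  exact hV.negY x y

section I

variable {I : F}

omit [DecidableEq F] [CharZero F] in
theorem cubI (hI : I ^ 2 + I + 1 = 0) : I ^ 3 = 1 := by linear_combination (I - 1) * hI

omit [DecidableEq F] [CharZero F] in
theorem neI (hI : I ^ 2 + I + 1 = 0) : I ≠ 0 := by
  rintro rfl
  have : (1 : F) = 0 := by linear_combination hI
  exact one_ne_zero this

omit [DecidableEq F] in
theorem lamI (hI : I ^ 2 + I + 1 = 0) : 1 + 2 * I ≠ 0 := by
  intro h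
  have h3 : (3 : F) = 0 := by linear_combination 4 * hI - (1 + 2 * I) * h
  exact three_ne_zero h3

omit [DecidableEq F] in
theorem subI (hI : I ^ 2 + I + 1 = 0) : 1 - I ≠ 0 := by
  intro h
  have h3 : (3 : F) = 0 := by linear_combination hI + (I + 2) * h
  exact three_ne_zero h3

omit [DecidableEq F] in
theorem IsD.im_nons (hV : IsD V D) (hD : D ≠ 0) (hI : I ^ 2 + I + 1 = 0) {x y : F}
    (h : V.toAffine.Nonsingular x y) : V.toAffine.Nonsingular (I * x) y := by
  apply hV.nons hD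
  have := (hV.eqn _ _).1 h.1
  have h3 := cubI hI
  rw [mul_pow, h3, one_mul]
  exact this

omit [DecidableEq F] in
/-- multiplication by the root of unity, as a map -/
def imf (hV : IsD V D) (hD : D ≠ 0) (hI : I ^ 2 + I + 1 = 0) : V.toAffine.Point → V.toAffine.Point
  | 0 => 0
  | .some x y h => .some (I * x) y (hV.im_nons hD hI h)

omit [DecidableEq F] in
theorem imf_some (hV : IsD V D) (hD : D ≠ 0) (hI : I ^ 2 + I + 1 = 0) {x y : F}
    (h : V.toAffine.Nonsingular x y) :
    imf hV hD hI (.some x y h) = .some (I * x) y (hV.im_nons hD hI h) := rfl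

theorem imf_add (hV : IsD V D) (hD : D ≠ 0) (hI : I ^ 2 + I + 1 = 0) (P Q : V.toAffine.Point) :
    imf hV hD hI (P + Q) = imf hV hD hI P + imf hV hD hI Q := by
  have hI0 := neI hI
  have hI3 := cubI hI
  rcases P with _ | ⟨x1, y1, h1⟩
  · show imf hV hD hI (0 + Q) = 0 + _
    rw [zero_add, zero_add]
  rcases Q with _ | ⟨x2, y2, h2⟩
  · show imf hV hD hI (_ + 0) = _ + 0
    rw [add_zero, add_zero]
  by_cases hxy : x1 = x2 ∧ y1 = -y2 - D
  · rw [hV.add_opp h1 h2 hxy, imf_some, imf_some, hV.add_opp]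
    · rfl
    · rw [hxy.1, hxy.2]
      exact ⟨rfl, rfl⟩
  · obtain ⟨ℓ, X, Y, h, e, eX, eY, hs⟩ := hV.add_ex h1 h2 hxy
    have hxy' : ¬ (I * x1 = I * x2 ∧ y1 = -y2 - D) := by
      rintro ⟨h3, h4⟩
      exact hxy ⟨mul_left_cancel₀ hI0 h3, h4⟩
    obtain ⟨m, X', Y', h', e', eX', eY', hs'⟩ :=
      hV.add_ex (hV.im_nons hD hI h1) (hV.im_nons hD hI h2) hxy'
    have hm : m = I ^ 2 * ℓ := by
      rcases hs with ⟨g1, g2⟩ | ⟨g1, g2, g3, g4⟩
      · rcases hs' with ⟨g1', g2'⟩ | ⟨g1', -⟩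
        · have h3 : (x1 - x2) * I ≠ 0 := mul_ne_zero (sub_ne_zero.2 g1) hI0
          apply mul_right_cancel₀ h3
          linear_combination g2' - g2 - ℓ * (x1 - x2) * hI3
        · exact absurd (mul_left_cancel₀ hI0 g1') g1
      · rcases hs' with ⟨g1', -⟩ | ⟨g1', g2', g3', g4'⟩
        · exact absurd (by rw [g1]) g1'
        · apply mul_right_cancel₀ g3
          linear_combination g4' - I ^ 2 * g4
    rw [e, imf_some, imf_some, imf_some, e']
    have hX : I * X = X' := by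
      rw [eX, eX', hm]
      linear_combination (-ℓ ^ 2 * I) * hI3
    have hY : Y = Y' := by
      rw [eY, eY', ← hX, hm]
      linear_combination (ℓ * (X - x1)) * hI3
    rw [Affine.Point.some.injEq]
    exact ⟨hX, hY⟩

/-- multiplication by the root of unity -/
def im (hV : IsD V D) (hD : D ≠ 0) (hI : I ^ 2 + I + 1 = 0) : V.toAffine.Point →+ V.toAffine.Point where
  toFun := imf hV hD hI
  map_zero' := rfl
  map_add' := imf_add hV hD hI

theorem im_some (hV : IsD V D) (hD : D ≠ 0) (hI : I ^ 2 + I + 1 = 0) {x y : F}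
    (h : V.toAffine.Nonsingular x y) :
    im hV hD hI (.some x y h) = .some (I * x) y (hV.im_nons hD hI h) := rfl

/-- the kernel of `1 - ω` -/
theorem ker_im (hV : IsD V D) (hD : D ≠ 0) (hI : I ^ 2 + I + 1 = 0) {P : V.toAffine.Point}
    (h : P - im hV hD hI P = 0) : P = 0 ∨ ∃ y h, P = .some 0 y h := by
  rcases P with _ | ⟨x, y, hn⟩
  · left
    rfl
  · right
    have h1 := sub_eq_zero.1 h
    rw [im_some, Affine.Point.some.injEq] at h1
    have h2 : (1 - I) * x = 0 := by linear_combination h1.1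
    have hx : x = 0 := (mul_eq_zero.1 h2).resolve_left (subI hI)
    subst hx
    exact ⟨y, hn, rfl⟩

omit [DecidableEq F] [CharZero F] in
/-- the relation between `x` and `g` -/
theorem rel (hI : I ^ 2 + I + 1 = 0) {x y g : F} (he : y ^ 2 + D * y = x ^ 3)
    (hg : y = D * I ^ 2 + (1 + 2 * I) * x * g) : x ^ 3 + 3 * g ^ 2 * x ^ 2 - 3 * D * g * x + D ^ 2 = 0 := by
  rw [← he, hg]
  linear_combination (D ^ 2 * (I ^ 2 - I) + 4 * g ^ 2 * x ^ 2 + D * (4 * g * x * I - 2 * g * x) + D ^ 2) * hI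

/-- `1 - ω` -/
theorem one_sub_im (hV : IsD V D) (hD : D ≠ 0) (hI : I ^ 2 + I + 1 = 0) {x g : F}
    (hn : V.toAffine.Nonsingular x (D * I ^ 2 + (1 + 2 * I) * x * g)) (hx : x ≠ 0) :
    ∃ (X : F) (h : V.toAffine.Nonsingular X (g ^ 3)),
      (Affine.Point.some x _ hn : V.toAffine.Point) - im hV hD hI (.some x _ hn) = .some X _ h := by
  have h0 := hV.neg_nons hD (hV.im_nons hD hI hn)
  have h1I := subI hI
  have hI3 := cubI hI
  have hI0 := neI hI
  have he := (hV.eqn _ _).1 hn.1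
  have hr := rel hI he rfl
  rw [sub_eq_add_neg, im_some, hV.neg_eq _ h0]
  set y := D * I ^ 2 + (1 + 2 * I) * x * g with hy
  have hxy : ¬ (x = I * x ∧ y = -(-y - D) - D) := by
    rintro ⟨h3, -⟩
    have h4 : (1 - I) * x = 0 := by linear_combination h3
    exact mul_ne_zero h1I hx h4
  obtain ⟨ℓ, X, Y, h, e, eX, eY, hs⟩ := hV.add_ex hn h0 hxy
  have hℓ : ℓ * x = I * (2 * g * x - D) := by
    rcases hs with ⟨-, k1⟩ | ⟨k1, -⟩
    · apply mul_left_cancel₀ h1I
      rw [hy] at k1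
      linear_combination k1 + (2 * g * x + D) * hI
    · exact absurd ⟨k1, by ring⟩ hxy
  have hXx : X * x = I ^ 2 * g * (g * x - D) := by
    apply mul_right_cancel₀ hx
    have e1 : X * x * x = (ℓ * x) ^ 2 - (1 + I) * x ^ 3 := by
      rw [eX]; ring
    rw [e1, hℓ]
    linear_combination (-x ^ 3) * hI + I ^ 2 * hr
  have hY : Y = g ^ 3 := by
    have hx2 : x ^ 2 ≠ 0 := pow_ne_zero 2 hx
    apply mul_right_cancel₀ hx2
    have e1 : Y * x ^ 2 = -(ℓ * x) * (X * x) + (ℓ * x) * x ^ 2 - (y + D) * x ^ 2 := by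
      rw [eY]; ring
    rw [e1, hℓ, hXx, hy]
    linear_combination (-(2 * g * x - D) * g * (g * x - D)) * hI3 - D * x ^ 2 * hI - g * hr
  subst hY
  exact ⟨X, h, e⟩

/-- `1 - ω` is surjective over algebraically closed fields -/
theorem surj_im [IsAlgClosed F] (hV : IsD V D) (hD : D ≠ 0) (hI : I ^ 2 + I + 1 = 0)
    (Q : V.toAffine.Point) : ∃ P, P - im hV hD hI P = Q := by
  have hI0 := neI hI
  have hI3 := cubI hI
  rcases Q with _ | ⟨X, Y, hn⟩
  · exact ⟨0, by rw [map_zero, sub_zero]; rfl⟩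
  have he := (hV.eqn _ _).1 hn.1
  obtain ⟨g, hg⟩ := IsAlgClosed.exists_pow_nat_eq Y (n := 3) (by norm_num)
  -- a root of the cubic
  obtain ⟨x, hx⟩ : ∃ x : F, x ^ 3 + 3 * g ^ 2 * x ^ 2 - 3 * D * g * x + D ^ 2 = 0 := by
    let p : Polynomial F := Polynomial.X ^ 3 + Polynomial.C (3 * g ^ 2) * Polynomial.X ^ 2 +
      Polynomial.C (-3 * D * g) * Polynomial.X + Polynomial.C (D ^ 2)
    have hp : p.degree = 3 := by
      have e : p = Polynomial.C 1 * Polynomial.X ^ 3 + Polynomial.C (3 * g ^ 2) * Polynomial.X ^ 2 +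
        Polynomial.C (-3 * D * g) * Polynomial.X + Polynomial.C (D ^ 2) := by
        simp only [p, Polynomial.C_1, one_mul]
      rw [e]
      exact Polynomial.degree_cubic one_ne_zero
    obtain ⟨x, hx⟩ := IsAlgClosed.exists_root p (by rw [hp]; norm_num)
    refine ⟨x, ?_⟩
    have h1 : Polynomial.eval x p = 0 := hx
    simp only [p, Polynomial.eval_add, Polynomial.eval_mul, Polynomial.eval_pow,
      Polynomial.eval_X, Polynomial.eval_C] at h1
    linear_combination h1
  have hx0 : x ≠ 0 := by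
    rintro rfl
    have h3 : D ^ 2 = 0 := by linear_combination hx
    exact hD (pow_eq_zero_iff two_ne_zero |>.1 h3)
  have hny : V.toAffine.Nonsingular x (D * I ^ 2 + (1 + 2 * I) * x * g) := by
    apply hV.nons hD
    linear_combination (D ^ 2 * (I ^ 2 - I) + 4 * g ^ 2 * x ^ 2 + D * (4 * g * x * I - 2 * g * x) + D ^ 2) * hI - hx
  obtain ⟨X', h', e'⟩ := one_sub_im hV hD hI hny hx0
  have he' := (hV.eqn _ _).1 h'.1
  rw [hg] at he'
  have h3 : (X - X') * (X - I * X') * (X - I ^ 2 * X') = 0 := by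
    linear_combination he' - he + (X * X' * (X' * I - X)) * hI - X' ^ 3 * hI3
  set P0 : V.toAffine.Point := .some x _ hny with hP0
  rcases mul_eq_zero.1 h3 with h4 | h4
  · rcases mul_eq_zero.1 h4 with h5 | h5
    · refine ⟨P0, ?_⟩
      rw [e', Affine.Point.some.injEq]
      exact ⟨(sub_eq_zero.1 h5).symm, hg⟩
    · refine ⟨im hV hD hI P0, ?_⟩
      rw [← map_sub, e', im_some, Affine.Point.some.injEq]
      exact ⟨(sub_eq_zero.1 h5).symm, hg⟩
  · refine ⟨im hV hD hI (im hV hD hI P0), ?_⟩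
    rw [← map_sub, ← map_sub, e', im_some, im_some, Affine.Point.some.injEq]
    exact ⟨by rw [sub_eq_zero.1 h4]; ring, hg⟩

/-- the sum of the conjugates -/
theorem im_im (hV : IsD V D) (hD : D ≠ 0) (hI : I ^ 2 + I + 1 = 0) (P : V.toAffine.Point) :
    im hV hD hI (im hV hD hI P) = -P - im hV hD hI P := by
  have hI0 := neI hI
  have hI3 := cubI hI
  have h1I := subI hI
  rcases P with _ | ⟨x, y, h⟩
  · show im hV hD hI (im hV hD hI 0) = -0 - im hV hD hI 0
    rw [map_zero, map_zero, neg_zero, sub_zero]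
  have he := (hV.eqn _ _).1 h.1
  have key : (Affine.Point.some x y h : V.toAffine.Point) + im hV hD hI (.some x y h) =
      -(im hV hD hI (im hV hD hI (.some x y h))) := by
    rw [im_some, im_some, hV.neg_eq _ (hV.neg_nons hD (hV.im_nons hD hI (hV.im_nons hD hI h)))]
    by_cases hx : x = 0
    · subst hx
      have hy : y * (y + D) = 0 := by linear_combination he
      have hxy : ¬ ((0 : F) = I * 0 ∧ y = -y - D) := by
        rintro ⟨-, h3⟩
        have h4 : D ^ 2 = 0 := by linear_combination -4 * hy + (2 * y + D) * h3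
        exact hD (pow_eq_zero_iff two_ne_zero |>.1 h4)
      obtain ⟨ℓ, X, Y, h', e, eX, eY, hs⟩ := hV.add_ex h (hV.im_nons hD hI h) hxy
      rw [e, Affine.Point.some.injEq]
      have hℓ : ℓ = 0 := by
        rcases hs with ⟨k1, -⟩ | ⟨-, -, k2, k3⟩
        · exact absurd (by ring) k1
        · have h5 : ℓ * (2 * y + D) = 0 := by rw [k3]; ring
          exact (mul_eq_zero.1 h5).resolve_right k2
      rw [eY, eX, hℓ]
      exact ⟨by ring, by ring⟩
    · have hxI : x ≠ I * x := by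
        intro h3
        have h4 : (1 - I) * x = 0 := by linear_combination h3
        exact mul_ne_zero h1I hx h4
      have hxy : ¬ (x = I * x ∧ y = -y - D) := fun h => hxI h.1
      obtain ⟨ℓ, X, Y, h', e, eX, eY, hs⟩ := hV.add_ex h (hV.im_nons hD hI h) hxy
      rw [e, Affine.Point.some.injEq]
      have hℓ : ℓ = 0 := by
        rcases hs with ⟨-, k1⟩ | ⟨k1, -⟩
        · have h5 : ℓ * (x - I * x) = 0 := by rw [k1]; ring
          exact (mul_eq_zero.1 h5).resolve_right (sub_ne_zero.2 hxI)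
        · exact absurd k1 hxI
      rw [eY, eX, hℓ]
      exact ⟨by linear_combination (-x) * hI, by ring⟩
  have h2 := congrArg (fun Q => -Q) key
  simp only [neg_neg] at h2
  rw [← h2]
  abel

/-- the square of the root of unity -/
theorem im_sq (hV : IsD V D) (hD : D ≠ 0) (hI : I ^ 2 + I + 1 = 0) (hI2 : (I ^ 2) ^ 2 + I ^ 2 + 1 = 0)
    (P : V.toAffine.Point) : im hV hD hI2 P = im hV hD hI (im hV hD hI P) := by
  rcases P with _ | ⟨x, y, h⟩
  · rfl
  · rw [im_some, im_some, im_some, Affine.Point.some.injEq]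
    exact ⟨by ring, rfl⟩

end I

end Pool.Agent.Q285.CE
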