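import Pool.Agent.Q7.CE.Stm
import Pool.Agent.Q285.CE.EllD

/-!
# Project CE, job EDD: the endomorphisms `1 - ω` and `1 - ω²`
-/

set_option autoImplicit false

namespace Pool.Agent.Q285.CE

open WeierstrassCurve Pool.Agent.Q7.CE
open Pool.Agent.TH841.SH.D (Pt act)

section

variable {F : Type} [Field F]

theorem isD_base (D : F) (L : Type) [Field L] [Algebra F L] :
    IsD ((ED D).baseChange L) (algebraMap F L D) :=
  ⟨map_zero _, map_zero _, rfl, map_zero _, map_zero _⟩

variable [CharZero F] {ω D : F}

/-- multiplication by `ω` on the points -/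
noncomputable def imP (hD : D ≠ 0) (hω : ω ^ 2 + ω + 1 = 0) (L : Type) [Field L] [Algebra F L] :
    Pt (ED D) L →+ Pt (ED D) L :=
  @im L _ (Classical.decEq L) ((ED D).baseChange L) (algebraMap F L D)
    (charZero_of_injective_algebraMap (algebraMap F L).injective) (algebraMap F L ω)
    (isD_base D L) ((map_ne_zero _).2 hD) (by
      rw [← map_pow, ← map_add, ← map_one (algebraMap F L), ← map_add, hω, map_zero])

theorem imP_imP (hD : D ≠ 0) (hω : ω ^ 2 + ω + 1 = 0) (L : Type) [Field L] [Algebra F L]
    (P : Pt (ED D) L) : imP hD hω L (imP hD hω L P) = -P - imP hD hω L P :=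
  @im_im L _ (Classical.decEq L) ((ED D).baseChange L) (algebraMap F L D)
    (charZero_of_injective_algebraMap (algebraMap F L).injective) (algebraMap F L ω)
    (isD_base D L) ((map_ne_zero _).2 hD) (by
      rw [← map_pow, ← map_add, ← map_one (algebraMap F L), ← map_add, hω, map_zero]) P

theorem imP_ker (hD : D ≠ 0) (hω : ω ^ 2 + ω + 1 = 0) (L : Type) [Field L] [Algebra F L]
    (P : Pt (ED D) L) (h : P - imP hD hω L P = 0) : P = 0 ∨ ∃ y h, P = Affine.Point.some 0 y h :=
  @ker_im L _ (Classical.decEq L) ((ED D).baseChange L) (algebraMap F L D)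
    (charZero_of_injective_algebraMap (algebraMap F L).injective) (algebraMap F L ω)
    (isD_base D L) ((map_ne_zero _).2 hD) (by
      rw [← map_pow, ← map_add, ← map_one (algebraMap F L), ← map_add, hω, map_zero]) P h

theorem imP_surj (hD : D ≠ 0) (hω : ω ^ 2 + ω + 1 = 0) (L : Type) [Field L] [Algebra F L] [IsAlgClosed L]
    (P : Pt (ED D) L) : ∃ R, R - imP hD hω L R = P :=
  @surj_im L _ (Classical.decEq L) ((ED D).baseChange L) (algebraMap F L D)
    (charZero_of_injective_algebraMap (algebraMap F L).injective) (algebraMap F L ω) _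
    (isD_base D L) ((map_ne_zero _).2 hD) (by
      rw [← map_pow, ← map_add, ← map_one (algebraMap F L), ← map_add, hω, map_zero]) P

theorem imP_act (hD : D ≠ 0) (hω : ω ^ 2 + ω + 1 = 0) {L L' : Type} [Field L] [Algebra F L] [Field L']
    [Algebra F L'] (φ : L →ₐ[F] L') (P : Pt (ED D) L) :
    act (ED D) φ (imP hD hω L P) = imP hD hω L' (act (ED D) φ P) := by
  rcases P with _ | ⟨x, y, h⟩
  · rfl
  · show (Affine.Point.some (φ (algebraMap F L ω * x)) (φ y) _ : ((ED D).baseChange L').toAffine.Point) =
      Affine.Point.some (algebraMap F L' ω * φ x) (φ y) _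
    rw [Affine.Point.some.injEq]
    exact ⟨by rw [map_mul, AlgHom.commutes], rfl⟩

theorem imP3 (hD : D ≠ 0) (hω : ω ^ 2 + ω + 1 = 0) (L : Type) [Field L] [Algebra F L]
    (P : Pt (ED D) L) : imP hD hω L (imP hD hω L (imP hD hω L P)) = P := by
  rw [imP_imP hD hω L (imP hD hω L P), imP_imP hD hω L P]
  abel

end

theorem edd : S_EDD := by
  intro F _ _ ω D hω0 hD
  have hω : ω ^ 2 + ω + 1 = 0 := by
    have h1 : (ω - 1) * (ω ^ 2 + ω + 1) = 0 := by
      have := hω0.pow_eq_one
      linear_combination this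
    refine (mul_eq_zero.1 h1).resolve_left fun h2 => ?_
    exact hω0.ne_one (by norm_num) (sub_eq_zero.1 h2)
  refine ⟨fun L _ _ => AddMonoidHom.id (Pt (ED D) L) - imP hD hω L,
    fun L _ _ => AddMonoidHom.id (Pt (ED D) L) - (imP hD hω L).comp (imP hD hω L), ?_, ?_, ?_, ?_⟩
  · intro L _ _ P
    constructor
    · show P - imP hD hω L P - imP hD hω L (imP hD hω L (P - imP hD hω L P)) = 3 • P
      rw [map_sub, map_sub, imP3, imP_imP]
      abel
    · show P - imP hD hω L (imP hD hω L P) - imP hD hω L (P - imP hD hω L (imP hD hω L P)) = 3 • P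
      rw [map_sub, imP3, imP_imP]
      abel
  · intro L L' _ _ _ _ φ P
    constructor
    · show act (ED D) φ (P - imP hD hω L P) = act (ED D) φ P - imP hD hω L' (act (ED D) φ P)
      rw [map_sub, imP_act]
    · show act (ED D) φ (P - imP hD hω L (imP hD hω L P)) =
        act (ED D) φ P - imP hD hω L' (imP hD hω L' (act (ED D) φ P))
      rw [map_sub, imP_act, imP_act]
  · intro L _ _ P
    constructor
    · intro h
      exact imP_ker hD hω L P h
    · intro h
      apply imP_ker hD hω L P
      have h1 : P - imP hD hω L (imP hD hω L P) = 0 := h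
      have h2 : imP hD hω L (P - imP hD hω L (imP hD hω L P)) = 0 := by rw [h1, map_zero]
      rw [map_sub, imP3] at h2
      rw [← neg_sub, h2, neg_zero]
  · intro L _ _ _ P
    constructor
    · exact imP_surj hD hω L P
    · obtain ⟨R, hR⟩ := imP_surj hD hω L (-(imP hD hω L P))
      refine ⟨R, ?_⟩
      show R - imP hD hω L (imP hD hω L R) = P
      have h1 : imP hD hω L (imP hD hω L (R - imP hD hω L R)) = -P := by
        rw [hR, map_neg, map_neg, imP3]
      rw [map_sub, map_sub, imP3] at h1
      rw [← neg_sub, h1, neg_neg]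

end Pool.Agent.Q285.CE
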