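import Pool.Agent.Q7.CE.Stm

/-!
# Project CE, job ESUM: the sum of the local degrees
-/

set_option autoImplicit false

namespace Pool.Agent.Q285.CE

open NumberField IsDedekindDomain Finset Pool.Agent.Q7.LK Pool.Agent.Q7.CE

section

variable {p : ℕ} [Fact p.Prime] {K : Type} [Field K] [NumberField K]

omit [NumberField K] in
theorem tot_cpx (hp : p ≠ 2) {ζ : K} (hζ : IsPrimitiveRoot ζ p) : IsTotallyComplex K := by
  refine ⟨fun v => ?_⟩
  rw [← InfinitePlace.not_isReal_iff_isComplex]
  intro hv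
  exact hζ.ne_one (Fact.out : p.Prime).one_lt (by
    have h1 : (v.embedding_of_isReal hv ζ) ^ p = 1 := by rw [← map_pow, hζ.pow_eq_one, map_one]
    have hodd : Odd p := (Fact.out : p.Prime).odd_of_ne_two hp
    have h2 : v.embedding_of_isReal hv ζ = 1 := by
      have := hodd.strictMono_pow (R := ℝ) |>.injective
      apply this
      simpa using h1
    exact (v.embedding_of_isReal hv).injective (by rw [h2, map_one]))

omit [Fact p.Prime] [NumberField K] in
theorem mem_over (q : (Ideal.span {(p : ℤ)}).primesOver (𝓞 K)) : (p : 𝓞 K) ∈ q.1 := by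
  have h := q.2.2.over
  have h1 : (p : ℤ) ∈ Ideal.under ℤ q.1 := by
    rw [← h]
    exact Ideal.mem_span_singleton_self _
  rw [Ideal.under_def, Ideal.mem_comap] at h1
  simpa using h1

/-- the point of an ideal above `p` -/
noncomputable def pnt (q : (Ideal.span {(p : ℤ)}).primesOver (𝓞 K)) : HeightOneSpectrum (𝓞 K) where
  asIdeal := q.1
  isPrime := q.2.1
  ne_bot := by
    intro h
    have h1 := mem_over q
    rw [h, Ideal.mem_bot] at h1
    exact Nat.cast_ne_zero.2 (Fact.out : p.Prime).ne_zero h1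

theorem pnt_inj : Function.Injective (pnt (p := p) (K := K)) := by
  intro a b h
  apply Subtype.ext
  have := congrArg HeightOneSpectrum.asIdeal h
  exact this

theorem range_pnt : Set.range (pnt (p := p) (K := K)) = {v | Dp p v} := by
  ext v
  constructor
  · rintro ⟨q, rfl⟩
    exact mem_over q
  · intro hv
    have hp : (Ideal.span {(p : ℤ)}).IsMaximal := by
      apply PrincipalIdealRing.isMaximal_of_irreducible
      exact (Nat.prime_iff_prime_int.1 (Fact.out : p.Prime)).irreducible
    have hlo : v.asIdeal.LiesOver (Ideal.span {(p : ℤ)}) := by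
      refine ⟨?_⟩
      apply hp.eq_of_le
      · exact (Ideal.IsPrime.under ℤ v.asIdeal).ne_top
      · rw [Ideal.span_singleton_le_iff_mem, Ideal.under_def, Ideal.mem_comap]
        have hv' : (p : 𝓞 K) ∈ v.asIdeal := hv
        simpa using hv'
    exact ⟨⟨v.asIdeal, v.isPrime, hlo⟩, rfl⟩

theorem finsum_dv [Fintype ((Ideal.span {(p : ℤ)}).primesOver (𝓞 K))] :
    ∑ᶠ v : HeightOneSpectrum (𝓞 K), dv p v / 2 = ∑ q : (Ideal.span {(p : ℤ)}).primesOver (𝓞 K),
      q.1.ramificationIdx ℤ * q.1.inertiaDeg ℤ / 2 := by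
  have h1 : ∑ᶠ v : HeightOneSpectrum (𝓞 K), dv p v / 2 =
      ∑ᶠ v ∈ Set.range (pnt (p := p) (K := K)), dv p v / 2 := by
    rw [← finsum_mem_univ]
    apply finsum_mem_inter_support_eq'
    intro x hx
    rw [range_pnt]
    refine ⟨fun _ => ?_, fun _ => trivial⟩
    by_contra h
    apply hx
    unfold dv
    rw [if_neg (show ¬ Dp p x from h), Nat.zero_div]
  rw [h1, finsum_mem_range pnt_inj, finsum_eq_sum_of_fintype]
  refine Finset.sum_congr rfl fun q _ => ?_
  have h2 : Dp p (pnt q) := mem_over q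
  unfold dv
  rw [if_pos h2]
  rfl

end

theorem esum : S_ESUM := by
  intro p _ hp F _ _ ζ hζ
  have htc : IsTotallyComplex F := tot_cpx hp hζ
  have : (Ideal.span {(p : ℤ)}).IsMaximal :=
    PrincipalIdealRing.isMaximal_of_irreducible (Nat.prime_iff_prime_int.1 (Fact.out : p.Prime)).irreducible
  have : (Ideal.span {(p : ℤ)}).IsPrime := Ideal.IsMaximal.isPrime inferInstance
  have : Finite ((Ideal.span {(p : ℤ)}).primesOver (𝓞 F)) :=
    Algebra.QuasiFinite.finite_primesOver _
  have := Fintype.ofFinite ((Ideal.span {(p : ℤ)}).primesOver (𝓞 F))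
  rw [finsum_dv]
  have htot := Ideal.sum_ramification_inertia_eq_finrank (Ideal.span {(p : ℤ)}) (𝓞 F)
  rw [RingOfIntegers.rank, IsTotallyComplex.finrank] at htot
  have h2 : 2 * ∑ q : (Ideal.span {(p : ℤ)}).primesOver (𝓞 F), q.1.ramificationIdx ℤ * q.1.inertiaDeg ℤ / 2 ≤
      ∑ q : (Ideal.span {(p : ℤ)}).primesOver (𝓞 F), q.1.ramificationIdx ℤ * q.1.inertiaDeg ℤ := by
    rw [Finset.mul_sum]
    refine Finset.sum_le_sum fun q _ => ?_
    omega
  rw [htot] at h2
  omega

end Pool.Agent.Q285.CE
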