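import Pool.Agent.Q240.CE.Stm

set_option autoImplicit false

/-!
# Project CE, job Rat: rational functions with poles at nodes times the sine
-/

open Polynomial Filter Topology Finset MeasureTheory Complex

namespace Pool.Agent.Q285.CE

open Pool.Agent Pool.Agent.Q240.CD Pool.Agent.Q240.CE

/-- combinations of the exponentials are trigonometric polynomials -/
lemma Tg_of (a : ℝ) (n : ℕ) (c : ℤ → ℂ) :
    Tg a n (fun x => ∑ k ∈ Finset.Icc (-(n : ℤ)) n, c k * Y23.G.F.ek a k x) := by
  refine ⟨fun k => c (-k), fun x => ?_⟩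
  simp only
  by_cases hx : |x| ≤ a
  · rw [if_pos hx]
    refine Finset.sum_bij (fun k _ => -k) (fun k hk => ?_) (fun k _ l _ h => by omega)
      (fun k hk => ⟨-k, ?_, by omega⟩) (fun k _ => ?_)
    · rw [Finset.mem_Icc] at hk ⊢; omega
    · rw [Finset.mem_Icc] at hk ⊢; omega
    · rw [neg_neg]
      unfold Y23.G.F.ek Y23.G.F.box Y23.G.F.nd
      rw [Set.indicator_of_mem (show x ∈ Set.Icc (-a) a from abs_le.1 hx), one_mul]
      congr 2
      push_cast
      ring
  · rw [if_neg hx]
    refine Finset.sum_eq_zero fun k _ => ?_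
    unfold Y23.G.F.ek Y23.G.F.box
    rw [Set.indicator_of_notMem (show x ∉ Set.Icc (-a) a from fun h => hx (abs_le.2 h)), zero_mul, mul_zero]

theorem rat : S_Rat := by
  intro a n J p ha hJ hdeg
  classical
  have hinj : Set.InjOn (vk a) J := (vk_inj ha).injOn
  have hsub : J ⊆ Finset.Icc (-(n : ℤ)) n := by
    intro j hj
    have := hJ j hj
    rw [Finset.mem_Icc]
    omega
  set c : ℤ → ℂ := fun k => p.eval (vk a k) / (2 * (-1) ^ k * ∏ j ∈ J.erase k, (vk a k - vk a j)) with hc
  have hFn : ∀ k ∈ J, Y23.G.F.Hn a (n : ℕ∞) (fun x => c k * Y23.G.F.ek a k x) := by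
    intro k hk
    refine (Y23.G.F.Hn_ek ha ?_).smul (c k)
    exact_mod_cast hJ k hk
  refine ⟨fun x => ∑ k ∈ J, c k * Y23.G.F.ek a k x, ?_, fun z => ?_⟩
  · have h1 := Tg_of a n (fun k => if k ∈ J then c k else 0)
    have e : (fun x => ∑ k ∈ J, c k * Y23.G.F.ek a k x) =
        fun x => ∑ k ∈ Finset.Icc (-(n : ℤ)) n, (if k ∈ J then c k else 0) * Y23.G.F.ek a k x := by
      funext x
      have e2 : ∀ k, (if k ∈ J then c k else 0) * Y23.G.F.ek a k x =
          if k ∈ J then c k * Y23.G.F.ek a k x else 0 := by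
        intro k
        split_ifs
        · rfl
        · rw [zero_mul]
      rw [Finset.sum_congr rfl fun k _ => e2 k, ← Finset.sum_filter]
      congr 1
      ext k
      rw [Finset.mem_filter]
      exact ⟨fun h => ⟨hsub h, h⟩, fun h => h.2⟩
    rw [e]
    exact h1
  · rw [(TT_sum' J _ hFn (I * z)).1]
    have hpd : p.degree < J.card := by
      refine lt_of_le_of_lt Polynomial.degree_le_natDegree ?_
      exact_mod_cast hdeg
    have hPe : p = Lagrange.interpolate J (vk a) (fun k => p.eval (vk a k)) :=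
      Lagrange.eq_interpolate hinj hpd
    conv_rhs => rw [hPe]
    rw [Lagrange.interpolate_apply, Polynomial.eval_finsetSum, Finset.mul_sum, Finset.mul_sum]
    refine Finset.sum_congr rfl fun k hk => ?_
    have hne : ∏ j ∈ J.erase k, (vk a k - vk a j) ≠ 0 := by
      refine Finset.prod_ne_zero_iff.2 fun j hj => ?_
      rw [Finset.mem_erase] at hj
      exact sub_ne_zero.2 fun h => hj.1 (vk_inj ha h).symm
    have hbas : (Lagrange.basis J (vk a) k).eval z = (∏ j ∈ J.erase k, (z - vk a j)) / ∏ j ∈ J.erase k, (vk a k - vk a j) := by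
      unfold Lagrange.basis Lagrange.basisDivisor
      rw [Polynomial.eval_prod, ← Finset.prod_div_distrib]
      refine Finset.prod_congr rfl fun j _ => ?_
      rw [Polynomial.eval_mul, Polynomial.eval_C, Polynomial.eval_sub, Polynomial.eval_X, Polynomial.eval_C]
      rw [div_eq_inv_mul]
    rw [Polynomial.eval_mul, Polynomial.eval_C, hbas, Y23.TT_smul, ← Finset.mul_prod_erase _ _ hk, hc]
    have h1 := TT_ek_eq ha k z
    have h2 : (-1 : ℂ) ^ k ≠ 0 := zpow_ne_zero _ (by norm_num)
    have e3 : (z - vk a k) * (∏ j ∈ J.erase k, (z - vk a j)) *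
        (p.eval (vk a k) / (2 * (-1) ^ k * ∏ j ∈ J.erase k, (vk a k - vk a j)) * Y23.TT (Y23.G.F.ek a k) (I * z)) =
        (∏ j ∈ J.erase k, (z - vk a j)) *
        (p.eval (vk a k) / (2 * (-1) ^ k * ∏ j ∈ J.erase k, (vk a k - vk a j))) *
          ((z - vk a k) * Y23.TT (Y23.G.F.ek a k) (I * z)) := by ring
    simp only
    rw [e3, h1]
    field_simp

end Pool.Agent.Q285.CE
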