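import Pool.Agent.Q240.CE.Stm

set_option autoImplicit false

/-!
# Project CE, job Test: a space of test functions of dimension k
-/

open Polynomial Filter Topology Finset MeasureTheory Complex
open scoped ComplexConjugate

namespace Pool.Agent.Q285.CE

open Pool.Agent Pool.Agent.Q240.CD Pool.Agent.Q240.CE
open Pool.Agent.Y23 (TT N2 Fa TT_smul)
open Pool.Agent.Y23.G (ZD Zt mu GG QQ rfZ rfZ_sub rfZ_val mu_rfZ)

/-- Cauchy-Schwarz -/
lemma norm_comb {k : ℕ} (t v : Fin k → ℂ) :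
    ‖∑ i, t i * v i‖ ^ 2 ≤ k * ∑ i, ‖t i‖ ^ 2 * ‖v i‖ ^ 2 := by
  have h1 : ‖∑ i, t i * v i‖ ≤ ∑ i, ‖t i‖ * ‖v i‖ :=
    (norm_sum_le _ _).trans (Finset.sum_le_sum fun i _ => (norm_mul _ _).le)
  have h2 := sq_sum_le_card_mul_sum_sq (s := (Finset.univ : Finset (Fin k))) (f := fun i => ‖t i‖ * ‖v i‖)
  rw [Finset.card_univ, Fintype.card_fin] at h2
  refine (pow_le_pow_left₀ (norm_nonneg _) h1 2).trans (h2.trans_eq ?_)
  congr 1
  exact Finset.sum_congr rfl fun i _ => by rw [mul_pow]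

section comb

variable {k : ℕ} {a : ℝ} {n : ℕ} {f : Fin k → ℝ → ℂ}

lemma TT_comb (ha : 0 < a) (hf : ∀ i, Tg a n (f i)) (t : Fin k → ℂ) (w : ℂ) :
    TT (fun x => ∑ i, t i * f i x) w = ∑ i, t i * TT (f i) w := by
  have h1 := (TT_sum' (a := a) (ν := (n : ℕ∞)) Finset.univ (fun i x => t i * f i x)
    (fun i _ => (Tg_Hn ha (hf i)).smul (t i)) w).1
  rw [h1]
  exact Finset.sum_congr rfl fun i _ => TT_smul _ _ _

lemma N2_comb (ha : 0 < a) (hf : ∀ i, Tg a n (f i)) (t : Fin k → ℂ) :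
    N2 (fun x => ∑ i, t i * f i x) ≤ k * ∑ i, ‖t i‖ ^ 2 * N2 (f i) := by
  have hint : ∀ i, Integrable (fun x => ‖f i x‖ ^ 2) := fun i => (Tg_Hn ha (hf i)).1.sq_int
  have hint2 : ∀ i ∈ (Finset.univ : Finset (Fin k)), Integrable (fun x => ‖t i‖ ^ 2 * ‖f i x‖ ^ 2) :=
    fun i _ => (hint i).const_mul _
  have h1 : N2 (fun x => ∑ i, t i * f i x) ≤ ∫ x : ℝ, (k : ℝ) * ∑ i, ‖t i‖ ^ 2 * ‖f i x‖ ^ 2 := by
    unfold N2
    refine integral_mono_of_nonneg (Eventually.of_forall fun x => by positivity)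
      ((integrable_finsetSum _ hint2).const_mul _) (Eventually.of_forall fun x => ?_)
    exact norm_comb t fun i => f i x
  rw [integral_const_mul, integral_finsetSum _ hint2] at h1
  refine h1.trans_eq ?_
  congr 1
  exact Finset.sum_congr rfl fun i _ => by rw [integral_const_mul]; rfl

end comb

section zeros

variable [D : ZD]

/-- the tail -/
noncomputable def tl (R : ℝ) (f : ℝ → ℂ) (ρ : Zt) : ℝ :=
  if R < ‖(ρ : ℂ) - 1 / 2‖ then (mu (ρ : ℂ) : ℝ) * ‖TT f ((ρ : ℂ) - 1 / 2)‖ ^ 2 else 0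

/-- the sum over the zeros -/
noncomputable def zs (f : ℝ → ℂ) (ρ : Zt) : ℝ := (mu (ρ : ℂ) : ℝ) * ‖TT f ((ρ : ℂ) - 1 / 2)‖ ^ 2

lemma zs_nn (f : ℝ → ℂ) (ρ : Zt) : 0 ≤ zs f ρ := by
  unfold zs
  positivity

lemma tl_nn (R : ℝ) (f : ℝ → ℂ) (ρ : Zt) : 0 ≤ tl R f ρ := by
  unfold tl
  split_ifs
  · positivity
  · exact le_refl _

lemma tl_le (R : ℝ) (f : ℝ → ℂ) (ρ : Zt) : tl R f ρ ≤ zs f ρ := by
  unfold tl
  split_ifs
  · exact le_refl _
  · exact zs_nn f ρ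

lemma tl_sum {R : ℝ} {f : ℝ → ℂ} (h : Summable (zs f)) : Summable (tl R f) :=
  Summable.of_nonneg_of_le (tl_nn R f) (tl_le R f) h

lemma norm_rf (ρ : Zt) : ‖((rfZ ρ : Zt) : ℂ) - 1 / 2‖ = ‖(ρ : ℂ) - 1 / 2‖ := by
  rw [rfZ_sub, norm_neg, RCLike.norm_conj]

lemma tl_rf (R : ℝ) (f : ℝ → ℂ) (ρ : Zt) : tl R f (rfZ ρ) =
    if R < ‖(ρ : ℂ) - 1 / 2‖ then (mu (ρ : ℂ) : ℝ) * ‖TT f (-conj ((ρ : ℂ) - 1 / 2))‖ ^ 2 else 0 := by
  unfold tl
  rw [norm_rf, mu_rfZ, rfZ_sub]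

lemma zs_rf (f : ℝ → ℂ) (ρ : Zt) : zs f (rfZ ρ) =
    (mu (ρ : ℂ) : ℝ) * ‖TT f (-conj ((ρ : ℂ) - 1 / 2))‖ ^ 2 := by
  unfold zs
  rw [mu_rfZ, rfZ_sub]

lemma norm_GG_zero (f g : ℝ → ℂ) (w : ℂ) : ‖GG f g w‖ ≤ 1 / 2 * (‖TT f w‖ ^ 2 + ‖TT g (-conj w)‖ ^ 2) := by
  unfold Pool.Agent.Y23.G.GG
  rw [norm_mul, RCLike.norm_conj]
  nlinarith [sq_nonneg (‖TT f w‖ - ‖TT g (-conj w)‖)]

lemma GG_refl (f g : ℝ → ℂ) (w : ℂ) : GG g f (-conj w) = conj (GG f g w) := by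
  unfold Pool.Agent.Y23.G.GG
  have : -conj (-conj w) = w := by simp
  rw [this, map_mul, Complex.conj_conj, mul_comm]

lemma re_GG_le (f : ℝ → ℂ) (w : ℂ) : |(GG f f w).re| ≤ 1 / 2 * (‖TT f w‖ ^ 2 + ‖TT f (-conj w)‖ ^ 2) :=
  (Complex.abs_re_le_norm _).trans (norm_GG_zero f f w)

lemma GG_term (f : ℝ → ℂ) (ρ : Zt) : |(mu (ρ : ℂ) : ℝ) * (GG f f ((ρ : ℂ) - 1 / 2)).re| ≤
    1 / 2 * (zs f ρ + zs f (rfZ ρ)) := by
  rw [abs_mul, Nat.abs_cast, zs_rf]
  unfold zs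
  have h1 := mul_le_mul_of_nonneg_left (re_GG_le f ((ρ : ℂ) - 1 / 2)) (Nat.cast_nonneg (α := ℝ) (mu (ρ : ℂ)))
  linarith

lemma GG_sum {f : ℝ → ℂ} (h : Summable (zs f)) :
    Summable fun ρ : Zt => (mu (ρ : ℂ) : ℝ) * (GG f f ((ρ : ℂ) - 1 / 2)).re := by
  have h1 : Summable fun ρ : Zt => zs f (rfZ ρ) := (rfZ.summable_iff (f := zs f)).2 h
  refine Summable.of_norm_bounded ((h.add h1).mul_left (1 / 2)) fun ρ => ?_
  rw [Real.norm_eq_abs]
  exact GG_term f ρ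

/-- the main bound, for a function which vanishes at all the zeros of a disc but some -/
theorem QQ_bound {k : ℕ} {R : ℝ} {F : ℝ → ℂ} (hF : Summable (zs F)) (z : Fin k → Zt) (e : Fin k → ℝ)
    (he : ∀ i, 0 ≤ e i) (hz : ∀ i, ‖((z i : Zt) : ℂ) - 1 / 2‖ ≤ R) (hinj : Function.Injective z)
    (h1 : ∀ i, (GG F F (((z i : Zt) : ℂ) - 1 / 2)).re ≤ -e i)
    (h0 : ∀ ρ : Zt, ‖(ρ : ℂ) - 1 / 2‖ ≤ R → (∀ i, ρ ≠ z i) → (∀ i, ρ ≠ rfZ (z i)) → TT F ((ρ : ℂ) - 1 / 2) = 0) :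
    QQ F ≤ ∑' ρ : Zt, tl R F ρ - ∑ i, e i := by
  classical
  have hs1 : Summable fun ρ : Zt => tl R F (rfZ ρ) := (rfZ.summable_iff (f := tl R F)).2 (tl_sum hF)
  have hs2 : ∀ i ∈ (Finset.univ : Finset (Fin k)), Summable fun ρ : Zt => if ρ = z i then -e i else 0 :=
    fun i _ => (hasSum_ite_eq (z i) (-e i)).summable
  have hs3 : Summable fun ρ : Zt => ∑ i, (if ρ = z i then -e i else 0) := summable_sum hs2
  have hpt : ∀ ρ : Zt, (mu (ρ : ℂ) : ℝ) * (GG F F ((ρ : ℂ) - 1 / 2)).re ≤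
      ∑ i, (if ρ = z i then -e i else 0) + 1 / 2 * (tl R F ρ + tl R F (rfZ ρ)) := by
    intro ρ
    have hmu : (1 : ℝ) ≤ (mu (ρ : ℂ) : ℝ) := by exact_mod_cast D.mpos _ ρ.2
    by_cases hR : R < ‖(ρ : ℂ) - 1 / 2‖
    · have hne : ∀ i, ρ ≠ z i := by
        rintro i rfl
        exact absurd (hz i) (not_le.2 hR)
      have e1 : ∑ i, (if ρ = z i then -e i else 0) = 0 :=
        Finset.sum_eq_zero fun i _ => if_neg (hne i)
      rw [e1, zero_add]
      have e2 : tl R F ρ = zs F ρ := if_pos hR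
      have e3 : tl R F (rfZ ρ) = zs F (rfZ ρ) := by
        refine if_pos ?_
        rw [norm_rf]
        exact hR
      rw [e2, e3]
      exact (le_abs_self _).trans (GG_term F ρ)
    · have hR' := not_lt.1 hR
      have e2 : tl R F ρ = 0 := if_neg hR
      have e3 : tl R F (rfZ ρ) = 0 := by
        refine if_neg ?_
        rw [norm_rf]
        exact hR
      rw [e2, e3, add_zero, mul_zero, add_zero]
      by_cases hA : ∃ i, ρ = z i
      · obtain ⟨i, rfl⟩ := hA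
        have e1 : ∑ j, (if z i = z j then -e j else 0) = -e i := by
          rw [Finset.sum_eq_single i]
          · exact if_pos rfl
          · intro j _ hj
            exact if_neg fun h => hj (hinj h).symm
          · intro h
            exact absurd (Finset.mem_univ i) h
        rw [e1]
        have h2 := h1 i
        have h3 := he i
        have h4 : (GG F F (((z i : Zt) : ℂ) - 1 / 2)).re ≤ 0 := by linarith
        nlinarith
      · push Not at hA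
        have e1 : ∑ i, (if ρ = z i then -e i else 0) = 0 :=
          Finset.sum_eq_zero fun i _ => if_neg (hA i)
        rw [e1]
        by_cases hB : ∃ i, ρ = rfZ (z i)
        · obtain ⟨i, rfl⟩ := hB
          rw [rfZ_sub, GG_refl, Complex.conj_re]
          have h2 := h1 i
          have h3 := he i
          have h4 : (GG F F (((z i : Zt) : ℂ) - 1 / 2)).re ≤ 0 := by linarith
          exact mul_nonpos_of_nonneg_of_nonpos (by linarith) h4
        · push Not at hB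
          have h5 := h0 ρ hR' hA hB
          have h6 : GG F F ((ρ : ℂ) - 1 / 2) = 0 := by
            unfold Pool.Agent.Y23.G.GG
            rw [h5, zero_mul]
          rw [h6, Complex.zero_re, mul_zero]
  have h7 : QQ F ≤ ∑' ρ : Zt, (∑ i, (if ρ = z i then -e i else 0) + 1 / 2 * (tl R F ρ + tl R F (rfZ ρ))) := by
    unfold Pool.Agent.Y23.G.QQ
    exact (GG_sum hF).tsum_le_tsum hpt (hs3.add (((tl_sum hF).add hs1).mul_left _))
  rw [hs3.tsum_add (((tl_sum hF).add hs1).mul_left _), Summable.tsum_finsetSum hs2, tsum_mul_left,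
    (tl_sum hF).tsum_add hs1, rfZ.tsum_eq (tl R F)] at h7
  have e4 : ∑ i, ∑' ρ : Zt, (if ρ = z i then -e i else 0) = -∑ i, e i := by
    rw [← Finset.sum_neg_distrib]
    exact Finset.sum_congr rfl fun i _ => tsum_ite_eq (z i) _
  rw [e4] at h7
  linarith

/-- the tail of a combination -/
lemma tl_comb {k : ℕ} {a : ℝ} {n : ℕ} {f : Fin k → ℝ → ℂ} (ha : 0 < a) (hf : ∀ i, Tg a n (f i)) (t : Fin k → ℂ)
    (R : ℝ) (ρ : Zt) : tl R (fun x => ∑ i, t i * f i x) ρ ≤ k * ∑ i, ‖t i‖ ^ 2 * tl R (f i) ρ := by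
  unfold tl
  by_cases hR : R < ‖(ρ : ℂ) - 1 / 2‖
  · simp only [if_pos hR]
    rw [TT_comb ha hf]
    have h1 := mul_le_mul_of_nonneg_left (norm_comb t fun i => TT (f i) ((ρ : ℂ) - 1 / 2))
      (Nat.cast_nonneg (α := ℝ) (mu (ρ : ℂ)))
    refine h1.trans_eq ?_
    rw [Finset.mul_sum, Finset.mul_sum, Finset.mul_sum]
    exact Finset.sum_congr rfl fun i _ => by ring
  · simp only [if_neg hR, mul_zero, Finset.sum_const_zero]
    exact le_refl _

lemma zs_comb {k : ℕ} {a : ℝ} {n : ℕ} {f : Fin k → ℝ → ℂ} (ha : 0 < a) (hf : ∀ i, Tg a n (f i)) (t : Fin k → ℂ)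
    (ρ : Zt) : zs (fun x => ∑ i, t i * f i x) ρ ≤ k * ∑ i, ‖t i‖ ^ 2 * zs (f i) ρ := by
  unfold zs
  rw [TT_comb ha hf]
  have h1 := mul_le_mul_of_nonneg_left (norm_comb t fun i => TT (f i) ((ρ : ℂ) - 1 / 2))
    (Nat.cast_nonneg (α := ℝ) (mu (ρ : ℂ)))
  refine h1.trans_eq ?_
  rw [Finset.mul_sum, Finset.mul_sum, Finset.mul_sum]
  exact Finset.sum_congr rfl fun i _ => by ring

end zeros

theorem test (hT1 : S_T1) : S_Test := by
  intro D n hn k ρ hinj hmem σ hσ hre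
  -- the constant
  obtain ⟨ε, hε, hεm⟩ : ∃ ε : ℝ, 0 < ε ∧ ∀ i, ε < (ρ i).re - 1 / 2 - σ := by
    have h1 : ∀ᶠ ε in 𝓝[>] (0 : ℝ), ∀ i, ε < (ρ i).re - 1 / 2 - σ := by
      refine eventually_all.2 fun i => ?_
      filter_upwards [Ioo_mem_nhdsGT (show (0 : ℝ) < (ρ i).re - 1 / 2 - σ by linarith [hre i])] with ε hε
      exact hε.2
    obtain ⟨ε, h2, h3⟩ := (h1.and self_mem_nhdsWithin).exists
    exact ⟨ε, h3, h2⟩
  have hhalf : ∀ i, 1 / 2 < (ρ i).re := fun i => by linarith [hre i]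
  choose R0 hR0 using fun i => hT1 n hn (ρ i) (hmem i) (hhalf i) ε hε
  obtain ⟨R, hR⟩ : ∃ R : ℝ, ∀ i, R0 i ≤ R ∧ ‖ρ i - 1 / 2‖ ≤ R := by
    have h1 : ∀ᶠ R : ℝ in atTop, ∀ i, R0 i ≤ R ∧ ‖ρ i - 1 / 2‖ ≤ R :=
      eventually_all.2 fun i => (eventually_ge_atTop _).and (eventually_ge_atTop _)
    exact h1.exists
  have hev := eventually_all.2 fun i => hR0 i R (hR i).1
  have hx1 : ∀ᶠ a : ℝ in atTop, (k : ℝ) + 1 ≤ Real.exp (ε * a) := by
    have h2 : Tendsto (fun a : ℝ => Real.exp (ε * a)) atTop atTop :=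
      Real.tendsto_exp_atTop.comp (tendsto_id.const_mul_atTop hε)
    exact h2.eventually_ge_atTop _
  have hx2 : ∀ᶠ a : ℝ in atTop, (k : ℝ) ≤ Real.exp (ε / 8 * a) := by
    have h2 : Tendsto (fun a : ℝ => Real.exp (ε / 8 * a)) atTop atTop :=
      Real.tendsto_exp_atTop.comp (tendsto_id.const_mul_atTop (by positivity))
    exact h2.eventually_ge_atTop _
  filter_upwards [hev, hx1, hx2, eventually_gt_atTop 0] with a hfa hx1 hx2 ha
  choose f hf1 hf2 hf3 hf4 hf5 hf6 using hfa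
  refine ⟨f, hf1, fun t => ⟨?_, ?_⟩⟩
  · -- the form
    obtain ⟨z, hz⟩ : ∃ z : Fin k → Zt, ∀ i, ((z i : Zt) : ℂ) = ρ i := ⟨fun i => ⟨ρ i, hmem i⟩, fun i => rfl⟩
    have hzinj : Function.Injective z := fun i j h => hinj (by rw [← hz, ← hz, h])
    have hF : Summable (zs (fun x => ∑ i, t i * f i x)) := by
      refine Summable.of_nonneg_of_le (zs_nn _) (zs_comb ha hf1 t) (Summable.mul_left _ ?_)
      exact summable_sum fun i _ => (hf5 i).mul_left _
    have hrf : ∀ i, ((rfZ (z i) : Zt) : ℂ) = 1 - conj (ρ i) := fun i => by rw [rfZ_val, hz]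
    have hcross : ∀ i j, ρ i ≠ 1 - conj (ρ j) := by
      intro i j h
      have h1 := congrArg Complex.re h
      rw [Complex.sub_re, Complex.one_re, Complex.conj_re] at h1
      linarith [hhalf i, hhalf j]
    -- values at the zeros
    have hv1 : ∀ i, TT (fun x => ∑ i, t i * f i x) (ρ i - 1 / 2) = t i * TT (f i) (ρ i - 1 / 2) := by
      intro i
      rw [TT_comb ha hf1, Finset.sum_eq_single i]
      · intro j _ hj
        rw [hf2 j (ρ i) (hmem i) (hR i).2 (fun h => hj (hinj h).symm) (hcross i j), mul_zero]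
      · intro h
        exact absurd (Finset.mem_univ i) h
    have hv2 : ∀ i, TT (fun x => ∑ i, t i * f i x) (-conj (ρ i - 1 / 2)) = t i * TT (f i) (-conj (ρ i - 1 / 2)) := by
      intro i
      rw [TT_comb ha hf1, Finset.sum_eq_single i]
      · intro j _ hj
        have h3 : -conj (ρ i - 1 / 2) = (1 - conj (ρ i)) - 1 / 2 := by
          rw [← hrf, rfZ_sub, hz]
        have h4 : ‖(1 - conj (ρ i)) - 1 / 2‖ ≤ R := by
          rw [← h3, norm_neg, RCLike.norm_conj]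
          exact (hR i).2
        rw [h3, hf2 j (1 - conj (ρ i)) (D.refl _ (hmem i)) h4 (fun h => hcross j i h.symm) (fun h => ?_), mul_zero]
        have h5 : conj (ρ i) = conj (ρ j) := by linear_combination -h
        exact hj (hinj ((starRingEnd ℂ).injective h5)).symm
      · intro h
        exact absurd (Finset.mem_univ i) h
    obtain ⟨E, hE⟩ : ∃ E : Fin k → ℝ, E = fun i => Real.exp ((2 * ((ρ i).re - 1 / 2) - ε) * a) := ⟨_, rfl⟩
    have hb := QQ_bound (R := R) hF z (fun i => ‖t i‖ ^ 2 * E i) (fun i => by rw [hE]; positivity)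
      (fun i => by rw [hz]; exact (hR i).2) hzinj (fun i => ?_) (fun s hs hs1 hs2 => ?_)
    · have ht1 : ∑' s : Zt, tl R (fun x => ∑ i, t i * f i x) s ≤ k * ∑ i, ‖t i‖ ^ 2 * Real.exp (-a) := by
        have hsi : ∀ i ∈ (Finset.univ : Finset (Fin k)), Summable fun s : Zt => ‖t i‖ ^ 2 * tl R (f i) s :=
          fun i _ => (tl_sum (hf5 i)).mul_left _
        refine ((tl_sum hF).tsum_le_tsum (tl_comb ha hf1 t R) ((summable_sum hsi).mul_left _)).trans ?_
        rw [tsum_mul_left, Summable.tsum_finsetSum hsi]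
        refine mul_le_mul_of_nonneg_left (Finset.sum_le_sum fun i _ => ?_) (Nat.cast_nonneg _)
        rw [tsum_mul_left]
        exact mul_le_mul_of_nonneg_left (hf6 i) (by positivity)
      have hEge : ∀ i, Real.exp (2 * σ * a) + k * Real.exp (-a) ≤ E i := by
        intro i
        rw [hE]
        have h1 : Real.exp (2 * σ * a) * Real.exp (ε * a) ≤ Real.exp ((2 * ((ρ i).re - 1 / 2) - ε) * a) := by
          rw [← Real.exp_add]
          refine Real.exp_le_exp.2 ?_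
          have := hεm i
          nlinarith
        have h2 : (1 : ℝ) ≤ Real.exp (2 * σ * a) := Real.one_le_exp (by positivity)
        have h3 : Real.exp (-a) ≤ 1 := Real.exp_le_one_iff.2 (by linarith)
        have h4 : (0 : ℝ) ≤ k := Nat.cast_nonneg _
        have h5 := Real.exp_pos (-a)
        calc Real.exp (2 * σ * a) + k * Real.exp (-a) ≤ Real.exp (2 * σ * a) * (k + 1) := by nlinarith
          _ ≤ Real.exp (2 * σ * a) * Real.exp (ε * a) := mul_le_mul_of_nonneg_left hx1 (by positivity)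
          _ ≤ _ := h1
      have hsum : ∑ i, ‖t i‖ ^ 2 * (Real.exp (2 * σ * a) + k * Real.exp (-a)) ≤ ∑ i, ‖t i‖ ^ 2 * E i :=
        Finset.sum_le_sum fun i _ => mul_le_mul_of_nonneg_left (hEge i) (by positivity)
      rw [← Finset.sum_mul] at hsum
      rw [← Finset.sum_mul] at ht1
      have hfin : QQ (fun x => ∑ i, t i * f i x) ≤ k * ((∑ i, ‖t i‖ ^ 2) * Real.exp (-a)) - ∑ i, ‖t i‖ ^ 2 * E i := by
        linarith
      linarith
    · rw [hz]
      have h3 : GG (fun x => ∑ i, t i * f i x) (fun x => ∑ i, t i * f i x) (ρ i - 1 / 2) =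
          ((‖t i‖ ^ 2 : ℝ) : ℂ) * GG (f i) (f i) (ρ i - 1 / 2) := by
        unfold Pool.Agent.Y23.G.GG
        rw [hv1, hv2, map_mul]
        have h4 : t i * conj (t i) = ((‖t i‖ ^ 2 : ℝ) : ℂ) := by
          rw [Complex.mul_conj, Complex.normSq_eq_norm_sq]
        rw [← h4]
        ring
      rw [h3, Complex.re_ofReal_mul]
      have h5 := mul_le_mul_of_nonneg_left (hf3 i) (sq_nonneg ‖t i‖)
      rw [hE]
      simp only
      linarith
    · rw [TT_comb ha hf1]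
      refine Finset.sum_eq_zero fun i _ => ?_
      rw [hf2 i (s : ℂ) s.2 hs (fun h => hs1 i (Subtype.ext (h.trans (hz i).symm)))
        (fun h => hs2 i (Subtype.ext (h.trans (hrf i).symm))), mul_zero]
  · -- the norm
    refine (N2_comb ha hf1 t).trans ?_
    rw [Finset.mul_sum]
    refine Finset.sum_le_sum fun i _ => ?_
    have h1 := hf4 i
    have h2 : (k : ℝ) * Real.exp (-(ε / 8 * a)) ≤ 1 := by
      rw [Real.exp_neg]
      have := Real.exp_pos (ε / 8 * a)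
      rw [← div_eq_mul_inv, div_le_one this]
      exact hx2
    have h3 : (0 : ℝ) ≤ k := Nat.cast_nonneg _
    have h4 := sq_nonneg ‖t i‖
    calc (k : ℝ) * (‖t i‖ ^ 2 * N2 (f i)) ≤ k * (‖t i‖ ^ 2 * Real.exp (-(ε / 8 * a))) := by gcongr
      _ = ‖t i‖ ^ 2 * (k * Real.exp (-(ε / 8 * a))) := by ring
      _ ≤ ‖t i‖ ^ 2 * 1 := mul_le_mul_of_nonneg_left h2 h4
      _ = _ := mul_one _

end Pool.Agent.Q285.CE
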