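import Pool.Agent.Q240.CE.Stm

set_option autoImplicit false

/-!
# Project CE, job ZC: a zero near a point where the function is small
-/

open Polynomial Filter Topology Finset MeasureTheory

namespace Pool.Agent.Q285.CE

open Pool.Agent.Q240.CE

/-- the derivative of a function which is real on the real line is real there -/
lemma deriv_im_zero {F : ℂ → ℂ} (hF : Differentiable ℂ F) (h : ∀ x : ℝ, (F (x : ℂ)).im = 0) (x : ℝ) :
    (deriv F (x : ℂ)).im = 0 := by
  have h1 : HasDerivAt F (deriv F (x : ℂ)) (x : ℂ) := (hF _).hasDerivAt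
  have h2 : HasDerivAt (fun z => -Complex.I * F z) (-Complex.I * deriv F (x : ℂ)) (x : ℂ) := h1.const_mul _
  have h3 := h2.real_of_complex
  have h4 : (fun y : ℝ => (-Complex.I * F (y : ℂ)).re) = fun _ => (0 : ℝ) := by
    funext y
    have := h y
    simp [this]
  rw [h4] at h3
  have h5 := h3.unique (hasDerivAt_const x (0 : ℝ))
  simpa using h5

/-- a zero of a function with large derivative -/
lemma zero_near {φ φ' : ℝ → ℝ} {x0 c s : ℝ} (hs : 0 ≤ s) (hd : ∀ x ∈ Set.Icc (x0 - s) (x0 + s), HasDerivAt φ (φ' x) x)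
    (hb : ∀ x ∈ Set.Icc (x0 - s) (x0 + s), c ≤ φ' x) (h0 : |φ x0| ≤ c * s) :
    ∃ t ∈ Set.Icc (x0 - s) (x0 + s), φ t = 0 := by
  have hcont : ContinuousOn φ (Set.Icc (x0 - s) (x0 + s)) := fun x hx => (hd x hx).continuousAt.continuousWithinAt
  have hmv := Convex.mul_sub_le_image_sub_of_le_deriv (convex_Icc (x0 - s) (x0 + s)) hcont
    (fun x hx => (hd x (interior_subset hx)).differentiableAt.differentiableWithinAt) (C := c)
    (fun x hx => by rw [(hd x (interior_subset hx)).deriv]; exact hb x (interior_subset hx))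
  have hx0 : x0 ∈ Set.Icc (x0 - s) (x0 + s) := ⟨by linarith, by linarith⟩
  have hl : x0 - s ∈ Set.Icc (x0 - s) (x0 + s) := ⟨le_refl _, by linarith⟩
  have hr : x0 + s ∈ Set.Icc (x0 - s) (x0 + s) := ⟨by linarith, le_refl _⟩
  have h1 := hmv _ hl _ hx0 (by linarith)
  have h2 := hmv _ hx0 _ hr (by linarith)
  have h3 : φ (x0 - s) ≤ 0 := by
    have := (abs_le.1 h0).2
    have e : c * (x0 - (x0 - s)) = c * s := by ring
    rw [e] at h1
    linarith
  have h4 : 0 ≤ φ (x0 + s) := by
    have := (abs_le.1 h0).1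
    have e : c * (x0 + s - x0) = c * s := by ring
    rw [e] at h2
    linarith
  obtain ⟨t, ht, h5⟩ := intermediate_value_Icc (by linarith : x0 - s ≤ x0 + s) hcont ⟨h3, h4⟩
  exact ⟨t, ht, h5⟩

theorem zc : S_ZC := by
  intro ι l F G hl hFG hF x0 hG0 hG1
  have hU : TendstoLocallyUniformlyOn F G l Set.univ := tendstoLocallyUniformlyOn_univ.2 hFG
  have hFd : ∀ᶠ i in l, DifferentiableOn ℂ (F i) Set.univ := hF.mono fun i hi => hi.1.differentiableOn
  have hGd : DifferentiableOn ℂ G Set.univ := hU.differentiableOn hFd isOpen_univ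
  have hGd' : Differentiable ℂ G := differentiableOn_univ.1 hGd
  have hD := hU.deriv hFd isOpen_univ
  have hD' : TendstoLocallyUniformly (deriv ∘ F) (deriv G) l := tendstoLocallyUniformlyOn_univ.1 hD
  -- pointwise limits
  have hp0 : Tendsto (fun i => F i (x0 : ℂ)) l (𝓝 0) := by
    have := hU.tendsto_at (Set.mem_univ (x0 : ℂ))
    rwa [hG0] at this
  have hp1 : Tendsto (fun i => deriv (F i) (x0 : ℂ)) l (𝓝 (deriv G (x0 : ℂ))) :=
    hD.tendsto_at (Set.mem_univ (x0 : ℂ))
  -- the derivative of the limit is real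
  have him : (deriv G (x0 : ℂ)).im = 0 := by
    have h1 : Tendsto (fun i => (deriv (F i) (x0 : ℂ)).im) l (𝓝 (deriv G (x0 : ℂ)).im) :=
      (Complex.continuous_im.tendsto _).comp hp1
    have h2 : Tendsto (fun i => (deriv (F i) (x0 : ℂ)).im) l (𝓝 0) := by
      refine tendsto_const_nhds.congr' ?_
      filter_upwards [hF] with i hi
      exact (deriv_im_zero hi.1 hi.2 x0).symm
    exact tendsto_nhds_unique h1 h2
  set d : ℝ := (deriv G (x0 : ℂ)).re with hd
  have hdG : deriv G (x0 : ℂ) = (d : ℂ) := by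
    apply Complex.ext
    · rw [Complex.ofReal_re]
    · rw [Complex.ofReal_im, him]
  have hd0 : d ≠ 0 := by
    intro h
    rw [h, Complex.ofReal_zero] at hdG
    exact hG1 hdG
  have hdpos : 0 < |d| := abs_pos.2 hd0
  -- uniform closeness
  obtain ⟨u, hu, h1⟩ := (Metric.tendstoLocallyUniformly_iff.1 hD') (|d| / 4) (by positivity) (x0 : ℂ)
  have hGc : Continuous (deriv G) := by
    have : AnalyticOnNhd ℂ G Set.univ := fun z _ => hGd'.analyticAt z
    exact continuousOn_univ.1 this.deriv.continuousOn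
  have h2 : ∀ᶠ s in 𝓝 (x0 : ℂ), dist (deriv G s) (deriv G (x0 : ℂ)) < |d| / 4 :=
    Metric.tendsto_nhds.1 hGc.continuousAt _ (by positivity)
  obtain ⟨δ, hδ, h3⟩ := Metric.eventually_nhds_iff.1 ((show ∀ᶠ s in 𝓝 (x0 : ℂ), s ∈ u from hu).and h2)
  have h4 : ∀ᶠ i in l, ‖F i (x0 : ℂ)‖ < |d| / 2 * (δ / 2) := by
    have := (tendsto_norm.comp hp0)
    rw [norm_zero] at this
    exact this.eventually_lt_const (by positivity)
  refine ⟨2 / |d|, by positivity, ?_⟩
  filter_upwards [hF, h1, h4] with i hi h1i h4i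
  obtain ⟨hFi, hre⟩ := hi
  set s : ℝ := 2 / |d| * ‖F i (x0 : ℂ)‖ with hs
  have hs0 : 0 ≤ s := by positivity
  have hsδ : s < δ := by
    have e1 : s * (|d| / 2) = ‖F i (x0 : ℂ)‖ := by
      rw [hs]
      field_simp
    have : s * (|d| / 2) < δ * (|d| / 2) := by
      rw [e1]
      have : |d| / 2 * (δ / 2) ≤ δ * (|d| / 2) := by nlinarith
      linarith
    exact lt_of_mul_lt_mul_right this (by positivity)
  have hnorm : ∀ x : ℝ, ‖F i (x : ℂ)‖ = |(F i (x : ℂ)).re| := by
    intro x
    have : F i (x : ℂ) = ((F i (x : ℂ)).re : ℂ) := by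
      apply Complex.ext
      · rw [Complex.ofReal_re]
      · rw [Complex.ofReal_im, hre]
    conv_lhs => rw [this]
    rw [Complex.norm_real, Real.norm_eq_abs]
  -- closeness of the derivatives
  have hclose : ∀ x ∈ Set.Icc (x0 - s) (x0 + s), |(deriv (F i) (x : ℂ)).re - d| ≤ |d| / 2 := by
    intro x hx
    have hx1 : dist (x : ℂ) (x0 : ℂ) < δ := by
      rw [dist_eq_norm, ← Complex.ofReal_sub, Complex.norm_real, Real.norm_eq_abs, abs_lt]
      exact ⟨by linarith [hx.1], by linarith [hx.2]⟩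
    obtain ⟨h5, h6⟩ := h3 hx1
    have h7 := h1i _ h5
    have h8 : dist (deriv (F i) (x : ℂ)) (deriv G (x0 : ℂ)) ≤ |d| / 2 := by
      have := dist_triangle (deriv (F i) (x : ℂ)) (deriv G (x : ℂ)) (deriv G (x0 : ℂ))
      rw [dist_comm (deriv (F i) (x : ℂ)) (deriv G (x : ℂ))] at this
      have h7' : dist (deriv G (x : ℂ)) (deriv (F i) (x : ℂ)) < |d| / 4 := h7
      linarith
    rw [dist_eq_norm] at h8
    have h9 := Complex.abs_re_le_norm (deriv (F i) (x : ℂ) - deriv G (x0 : ℂ))
    rw [Complex.sub_re, ← hd] at h9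
    exact h9.trans h8
  have hderiv : ∀ x : ℝ, HasDerivAt (fun y : ℝ => (F i (y : ℂ)).re) (deriv (F i) (x : ℂ)).re x :=
    fun x => ((hFi _).hasDerivAt).real_of_complex
  have hfin : ∃ t ∈ Set.Icc (x0 - s) (x0 + s), (F i (t : ℂ)).re = 0 := by
    rcases lt_or_gt_of_ne hd0 with h | h
    · have habs : |d| = -d := abs_of_neg h
      obtain ⟨t, ht, h10⟩ := zero_near (φ := fun y : ℝ => -(F i (y : ℂ)).re) (φ' := fun y : ℝ => -(deriv (F i) (y : ℂ)).re)
        (x0 := x0) (c := |d| / 2) (s := s) hs0 (fun x _ => (hderiv x).neg)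
        (fun x hx => by
          have := (abs_le.1 (hclose x hx)).2
          rw [habs] at this ⊢
          linarith)
        (by
          rw [abs_neg, ← hnorm, hs]
          apply le_of_eq
          field_simp)
      exact ⟨t, ht, by simpa using h10⟩
    · have habs : |d| = d := abs_of_pos h
      obtain ⟨t, ht, h10⟩ := zero_near (φ := fun y : ℝ => (F i (y : ℂ)).re) (φ' := fun y : ℝ => (deriv (F i) (y : ℂ)).re)
        (x0 := x0) (c := |d| / 2) (s := s) hs0 (fun x _ => hderiv x)
        (fun x hx => by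
          have := (abs_le.1 (hclose x hx)).1
          rw [habs] at this ⊢
          linarith)
        (by
          rw [← hnorm, hs]
          apply le_of_eq
          field_simp)
      exact ⟨t, ht, h10⟩
  obtain ⟨t, ht, h11⟩ := hfin
  refine ⟨t, ?_, ?_⟩
  · apply Complex.ext
    · rw [h11, Complex.zero_re]
    · rw [hre, Complex.zero_im]
  · rw [abs_le]
    exact ⟨by linarith [ht.1], by linarith [ht.2]⟩

end Pool.Agent.Q285.CE
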