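import Pool.Agent.Q7.CE.Stm
import Pool.Agent.Q285.LK.CPL

/-!
# Project CE, job ELOC: formal properties of the classes
-/

set_option autoImplicit false

namespace Pool.Agent.Q285.CE

open NumberField IsDedekindDomain Pool.Agent.Q7.LK Pool.Agent.Q7.CE Pool.Agent.Q285.LK

section K

variable {K : Type} [Field K]

/-- the diagonal cubic has a point over `K` -/
def AK (D a : K) : Prop :=
  ∃ u w s : K, (u ≠ 0 ∨ w ≠ 0 ∨ s ≠ 0) ∧ w ^ 3 = a ^ 2 * u ^ 3 + a * D * s ^ 3

theorem AK.mul {D a : K} (h : AK D a) {β : K} (hβ : β ≠ 0) : AK D (a * β ^ 3) := by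
  obtain ⟨u, w, s, h0, h1⟩ := h
  refine ⟨u / β ^ 2, w, s / β, ?_, ?_⟩
  · rcases h0 with h | h | h
    · exact Or.inl (div_ne_zero h (pow_ne_zero 2 hβ))
    · exact Or.inr (Or.inl h)
    · exact Or.inr (Or.inr (div_ne_zero h hβ))
  · rw [h1]
    field_simp

theorem AK.inv {D a : K} (h : AK D a) {ν : K} (hν : ν ≠ 0) : AK (D * ν ^ 3) a := by
  obtain ⟨u, w, s, h0, h1⟩ := h
  refine ⟨u, w, s / ν, ?_, ?_⟩
  · rcases h0 with h | h | h
    · exact Or.inl h
    · exact Or.inr (Or.inl h)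
    · exact Or.inr (Or.inr (div_ne_zero h hν))
  · rw [h1]
    field_simp

theorem AK.neg {D a : K} (h : AK D a) (ha : a ≠ 0) : AK D a⁻¹ := by
  obtain ⟨u, w, s, h0, h1⟩ := h
  refine ⟨w, u, -s, ?_, ?_⟩
  · rcases h0 with h | h | h
    · exact Or.inr (Or.inl h)
    · exact Or.inl h
    · exact Or.inr (Or.inr (neg_ne_zero.2 h))
  · rw [h1]
    field_simp
    ring

theorem AK.one (D : K) : AK D 1 := ⟨1, 1, 0, Or.inl one_ne_zero, by ring⟩

theorem AK.sq {D a : K} (h : AK D a) (ha : a ≠ 0) (hD : D ≠ 0) : AK D (a * D ^ 2) := by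
  obtain ⟨u, w, s, h0, h1⟩ := h
  by_cases hs : s = 0
  · subst hs
    rw [zero_pow three_ne_zero, mul_zero, add_zero] at h1
    have hw : w ≠ 0 := by
      rintro rfl
      rw [zero_pow three_ne_zero] at h1
      have h2 : u = 0 := by
        have := mul_eq_zero.1 h1.symm
        rcases this with h | h
        · exact absurd h (pow_ne_zero 2 ha)
        · exact (pow_eq_zero_iff three_ne_zero).1 h
      simp [h2] at h0
    refine ⟨0, D * (a * u / w), 1, Or.inr (Or.inr one_ne_zero), ?_⟩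
    have hw3 : w ^ 3 ≠ 0 := pow_ne_zero 3 hw
    rw [mul_pow, div_pow, mul_pow, h1]
    rw [h1] at hw3
    have hu : u ≠ 0 := by
      rintro rfl
      simp at hw3
    field_simp
    ring
  · by_cases hw : w = 0
    · subst hw
      have h2 : a * u ^ 3 = - D * s ^ 3 := by
        have h3 : a * (a * u ^ 3 + D * s ^ 3) = 0 := by
          rw [zero_pow three_ne_zero] at h1
          linear_combination -h1
        have h4 := (mul_eq_zero.1 h3).resolve_left ha
        linear_combination h4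
      have hu : u ≠ 0 := by
        rintro rfl
        rw [zero_pow three_ne_zero, mul_zero] at h2
        exact mul_ne_zero (neg_ne_zero.2 hD) (pow_ne_zero 3 hs) h2.symm
      refine ⟨1, (D * s / u) ^ 2, 0, Or.inl one_ne_zero, ?_⟩
      have h3 : a = - D * s ^ 3 / u ^ 3 := by
        rw [← h2]
        field_simp
      rw [h3]
      field_simp
      ring
    · refine ⟨-s / w, a * D * u / w, 1, Or.inr (Or.inr one_ne_zero), ?_⟩
      have h2 : a ^ 2 * u ^ 3 = w ^ 3 - a * D * s ^ 3 := by rw [h1]; ring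
      have h3 : (a * D * u / w) ^ 3 = a * D ^ 3 * (a ^ 2 * u ^ 3) / w ^ 3 := by
        field_simp
      rw [h3, h2]
      field_simp
      ring

end K

section F

variable {F : Type} [Field F] [NumberField F] {v : HeightOneSpectrum (𝓞 F)}

theorem ae_iff {D a : F} : AE v D a ↔ a ≠ 0 ∧ AK (algebraMap F (v.adicCompletion F) D)
    (algebraMap F (v.adicCompletion F) a) := by
  unfold AE AK
  rw [cpl_coe, cpl_coe]

theorem AE.mul3 {D a : F} (h : AE v D a) {b : F} (hb : b ≠ 0) : AE v D (a * b ^ 3) := by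
  rw [ae_iff] at h ⊢
  refine ⟨mul_ne_zero h.1 (pow_ne_zero 3 hb), ?_⟩
  rw [map_mul, map_pow]
  exact h.2.mul ((map_ne_zero _).2 hb)

end F

theorem eloc : S_BAS → S_CPL → S_ELOC := by
  intro hBAS hCPL F _ _ v D hD
  have : Fact (Nat.Prime 3) := ⟨Nat.prime_three⟩
  have hD' : algebraMap F (v.adicCompletion F) D ≠ 0 := (map_ne_zero _).2 hD
  refine ⟨?_, ?_, ?_, ?_⟩
  · intro a b ha hb
    obtain ⟨hb0, β, hβ⟩ := (hCPL 3 F v b).1 hb
    rw [cpl_coe] at hβ
    rw [ae_iff] at ha ⊢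
    refine ⟨mul_ne_zero ha.1 hb0, ?_⟩
    rw [map_mul, hβ]
    refine ha.2.mul ?_
    rintro rfl
    rw [zero_pow three_ne_zero] at hβ
    exact (map_ne_zero _).2 hb0 hβ
  · intro n a hn ha
    obtain ⟨hn0, ν, hν⟩ := (hCPL 3 F v n).1 hn
    rw [cpl_coe] at hν
    rw [ae_iff] at ha ⊢
    refine ⟨ha.1, ?_⟩
    rw [map_mul, hν]
    refine ha.2.inv ?_
    rintro rfl
    rw [zero_pow three_ne_zero] at hν
    exact (map_ne_zero _).2 hn0 hν
  · intro a ha
    have h := ae_iff.1 ha
    have ha' : algebraMap F (v.adicCompletion F) a ≠ 0 := (map_ne_zero _).2 h.1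
    have h1 := (h.2.sq ha' hD').sq (mul_ne_zero ha' (pow_ne_zero 2 hD')) hD'
    have h2 := h1.mul (inv_ne_zero hD')
    rw [ae_iff]
    refine ⟨mul_ne_zero h.1 hD, ?_⟩
    have e : algebraMap F (v.adicCompletion F) (a * D) =
        algebraMap F (v.adicCompletion F) a * algebraMap F (v.adicCompletion F) D ^ 2 *
          algebraMap F (v.adicCompletion F) D ^ 2 * (algebraMap F (v.adicCompletion F) D)⁻¹ ^ 3 := by
      rw [map_mul]
      field_simp
    rw [e]
    exact h2
  · intro a ha n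
    have h := ae_iff.1 ha
    have ha' : algebraMap F (v.adicCompletion F) a ≠ 0 := (map_ne_zero _).2 h.1
    have e : a ^ n = a ^ (n % 3) * (a ^ (n / 3)) ^ 3 := by
      rw [← pow_mul, ← pow_add]
      congr 1
      omega
    rw [e]
    refine AE.mul3 ?_ (pow_ne_zero _ h.1)
    have h3 : n % 3 = 0 ∨ n % 3 = 1 ∨ n % 3 = 2 := by omega
    rcases h3 with h3 | h3 | h3 <;> rw [h3]
    · rw [pow_zero, ae_iff]
      refine ⟨one_ne_zero, ?_⟩
      rw [map_one]
      exact AK.one _
    · rw [pow_one]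
      exact ha
    · rw [ae_iff]
      refine ⟨pow_ne_zero 2 h.1, ?_⟩
      have e2 : algebraMap F (v.adicCompletion F) (a ^ 2) =
          (algebraMap F (v.adicCompletion F) a)⁻¹ * algebraMap F (v.adicCompletion F) a ^ 3 := by
        rw [map_pow]
        field_simp
      rw [e2]
      exact (h.2.neg ha').mul ha'

end Pool.Agent.Q285.CE
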